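import Pool.Agent.LRetract.Defs2

/-!
# The choice of the indices
-/

open Set Filter Topology Cardinal

namespace Pool.Agent.LRetract

namespace Comb

theorem continuum_le : Cardinal.continuum ≤ #(T → ℝ) := by
  rw [← Cardinal.mk_real]
  exact Cardinal.mk_le_of_injective (f := fun (x : ℝ) => (fun _ : T => x))
    (fun x y h => congrFun h ⟨0, le_rfl, zero_le_one⟩)

theorem mk_par : #(Par × ℝ) ≤ #(T → ℝ) := by
  refine le_trans ?_ continuum_le
  have h1 : #Par ≤ Cardinal.continuum := by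
    have : #Par ≤ #(ℝ × ℝ) := by
      refine Cardinal.mk_le_of_injective (f := fun p : Par => (p.t1, p.t2)) ?_
      rintro ⟨a, b, _, _, _, _, _, _⟩ ⟨a', b', _, _, _, _, _, _⟩ h
      simp only [Prod.mk.injEq] at h
      obtain ⟨rfl, rfl⟩ := h
      rfl
    refine this.trans ?_
    rw [Cardinal.mk_prod, Cardinal.lift_id, Cardinal.mk_real, Cardinal.continuum_mul_self]
  rw [Cardinal.mk_prod, Cardinal.lift_id, Cardinal.lift_id, Cardinal.mk_real]
  calc #Par * Cardinal.continuum ≤ Cardinal.continuum * Cardinal.continuum :=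
        mul_le_mul' h1 le_rfl
    _ = _ := Cardinal.continuum_mul_self

theorem exists_two : ∃ p q : Par, p ≠ q := by
  have h1 : Irrational (√2 / 2) := by
    have := irrational_sqrt_two.div_natCast (m := 2) (by norm_num)
    simpa using this
  have h2 : Irrational (√2 / 4) := by
    have := irrational_sqrt_two.div_natCast (m := 4) (by norm_num)
    simpa using this
  have h3 : (0 : ℝ) < √2 := by positivity
  have h4 : √2 < 2 := by
    have := Real.sq_sqrt (show (0 : ℝ) ≤ 2 by norm_num)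
    nlinarith
  refine ⟨⟨√2 / 2, √2 / 2, h1, h1, by positivity, by positivity, by linarith, by linarith⟩,
    ⟨√2 / 4, √2 / 2, h2, h1, by positivity, by positivity, by linarith, by linarith⟩, ?_⟩
  intro h
  have := congrArg Par.t1 h
  simp only at this
  linarith

end Comb

open Comb in
open Classical in
/-- **CB** -/
theorem exists_indices (θ : J → (T → ℝ)) (f1 : I → Set J) (h1 : ∀ F, (f1 F).Countable)
    (f2 : J → Set I) (h2 : ∀ η, (f2 η).Countable) (p : I → (T → ℝ) → Par) :
    ∃ (F : I) (η : J), η ∉ f1 F ∧ F ∉ f2 η ∧ F η = p F (θ η) := by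
  have hK : ℵ₀ ≤ #(T → ℝ) := Cardinal.aleph0_le_continuum.trans continuum_le
  have hJ : #J = 2 ^ #(T → ℝ) := Cardinal.mk_set
  have hKJ : #(T → ℝ) < #J := by rw [hJ]; exact Cardinal.cantor _
  have hJinf : ℵ₀ ≤ #J := hK.trans hKJ.le
  have : Infinite J := Cardinal.infinite_iff.2 hJinf
  -- a large fibre
  obtain ⟨τ, hτ⟩ : ∃ τ : T → ℝ, #(T → ℝ) < #(θ ⁻¹' {τ}) := by
    by_contra hcon
    push Not at hcon
    have h3 := Cardinal.mk_le_mk_mul_of_mk_preimage_le θ hcon
    rw [Cardinal.mul_eq_self hK] at h3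
    exact absurd h3 (not_le.2 hKJ)
  obtain ⟨ι⟩ : Nonempty ((Par × ℝ) ↪ (θ ⁻¹' {τ})) := by
    rw [← Cardinal.le_def]
    exact mk_par.trans hτ.le
  let κ : Par × ℝ → J := fun x => (ι x).1
  have hκ : Function.Injective κ := fun x y h => ι.injective (Subtype.ext h)
  have hκθ : ∀ x, θ (κ x) = τ := fun x => (ι x).2
  have hR : #(Set.range κ) < #J := (Cardinal.mk_range_le.trans mk_par).trans_lt hKJ
  have hRc : #((Set.range κ)ᶜ : Set J) = #J := Cardinal.mk_compl_of_infinite _ hR
  obtain ⟨p0, p1, hp⟩ := exists_two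
  let FS : Set ((Set.range κ)ᶜ : Set J) → I := fun S η =>
    if h : η ∈ Set.range κ then h.choose.1 else if (⟨η, h⟩ : ((Set.range κ)ᶜ : Set J)) ∈ S
      then p0 else p1
  have hFSκ : ∀ S x, FS S (κ x) = x.1 := by
    intro S x
    have h : κ x ∈ Set.range κ := ⟨x, rfl⟩
    change (if h : κ x ∈ Set.range κ then h.choose.1 else _) = _
    rw [dif_pos h, hκ h.choose_spec]
  have hFSinj : Function.Injective FS := by
    intro S S' h
    ext ⟨η, hη⟩
    have h3 := congrFun h η
    have hη' : ¬ η ∈ Set.range κ := hη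
    change (if h : η ∈ Set.range κ then h.choose.1 else if (⟨η, h⟩ : ((Set.range κ)ᶜ : Set J)) ∈ S
      then p0 else p1) = (if h : η ∈ Set.range κ then h.choose.1 else
      if (⟨η, h⟩ : ((Set.range κ)ᶜ : Set J)) ∈ S' then p0 else p1) at h3
    rw [dif_neg hη', dif_neg hη'] at h3
    by_cases ha : (⟨η, hη⟩ : ((Set.range κ)ᶜ : Set J)) ∈ S <;>
      by_cases hb : (⟨η, hη⟩ : ((Set.range κ)ᶜ : Set J)) ∈ S'
    · exact ⟨fun _ => hb, fun _ => ha⟩
    · rw [if_pos ha, if_neg hb] at h3; exact absurd h3 hp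
    · rw [if_neg ha, if_pos hb] at h3; exact absurd h3.symm hp
    · exact ⟨fun h => absurd h ha, fun h => absurd h hb⟩
  obtain ⟨S, hS⟩ : ∃ S, FS S ∉ ⋃ η, f2 η := by
    by_contra hcon
    push Not at hcon
    have h3 : #(Set ((Set.range κ)ᶜ : Set J)) ≤ #(⋃ η, f2 η : Set I) :=
      Cardinal.mk_le_of_injective (f := fun S => (⟨FS S, hcon S⟩ : (⋃ η, f2 η : Set I)))
        (fun S S' h => hFSinj (congrArg Subtype.val h))
    rw [Cardinal.mk_set, hRc] at h3
    have h4 : #(⋃ η, f2 η : Set I) ≤ #J := by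
      refine (Cardinal.mk_iUnion_le f2).trans ?_
      have h5 : (⨆ η, #(f2 η)) ≤ ℵ₀ := ciSup_le' fun η =>
        Cardinal.le_aleph0_iff_set_countable.2 (h2 η)
      calc #J * ⨆ η, #(f2 η) ≤ #J * ℵ₀ := mul_le_mul' le_rfl h5
        _ ≤ #J * #J := mul_le_mul' le_rfl hJinf
        _ = #J := Cardinal.mul_eq_self hJinf
    exact absurd (h3.trans h4) (not_le.2 (Cardinal.cantor _))
  -- the index of the second kind
  let F := FS S
  let q := p F τ
  obtain ⟨x, hx⟩ : ∃ x : ℝ, κ (q, x) ∉ f1 F := by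
    by_contra hcon
    push Not at hcon
    have h3 : (Set.univ : Set ℝ).Countable := by
      have h4 := (h1 F).preimage (f := fun x : ℝ => κ (q, x)) (fun x y h => by
        have := hκ h
        simpa using this)
      refine h4.mono fun x _ => hcon x
    exact Set.not_countable_univ h3
  refine ⟨F, κ (q, x), hx, fun h => hS (Set.mem_iUnion.2 ⟨_, h⟩), ?_⟩
  rw [hκθ]
  exact hFSκ S (q, x)

end Pool.Agent.LRetract
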