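import Pool.Agent.LRetract.Defs2

/-!
# Intermediate values at irrational points
-/

open Set Filter Topology

namespace Pool.Agent.LRetract

namespace Curve

theorem exists_first (φ : T → ℝ) (hφ : Continuous φ) (hφ0 : ∀ t : T, φ t = 0 ↔ (t : ℝ) = 0)
    (τ : ℝ) (h0 : 0 < τ) (h1 : τ < φ ⟨1, zero_le_one, le_rfl⟩) :
    ∃ t : T, φ t = τ ∧ ∀ s : T, s < t → φ s < τ := by
  have hz : φ ⟨0, le_rfl, zero_le_one⟩ = 0 := (hφ0 _).2 rfl
  have hne : ({t : T | φ t = τ}).Nonempty := by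
    obtain ⟨t, ht⟩ := mem_range_of_exists_le_of_exists_ge hφ
      ⟨⟨0, le_rfl, zero_le_one⟩, by rw [hz]; exact h0.le⟩
      ⟨⟨1, zero_le_one, le_rfl⟩, h1.le⟩
    exact ⟨t, ht⟩
  have hcl : IsClosed {t : T | φ t = τ} := isClosed_eq hφ continuous_const
  obtain ⟨t, ht, hmin⟩ := hcl.isCompact.exists_isLeast hne
  refine ⟨t, ht, fun s hs => ?_⟩
  by_contra hcon
  have hcon' : τ ≤ φ s := not_lt.1 hcon
  have hc : Continuous (fun x : T => φ (min x s)) := hφ.comp (continuous_id.min continuous_const)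
  obtain ⟨x, hx⟩ := mem_range_of_exists_le_of_exists_ge hc (c := τ)
    ⟨⟨0, le_rfl, zero_le_one⟩, by
      have : min (⟨0, le_rfl, zero_le_one⟩ : T) s = ⟨0, le_rfl, zero_le_one⟩ :=
        min_eq_left s.2.1
      change φ (min (⟨0, le_rfl, zero_le_one⟩ : T) s) ≤ τ
      rw [this, hz]; exact h0.le⟩
    ⟨s, by change τ ≤ φ (min s s); rw [min_self]; exact hcon'⟩
  have h2 : t ≤ min x s := hmin hx
  exact absurd (h2.trans (min_le_right _ _)) (not_le.2 hs)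

/-- The values at the rational points. -/
def ratVal (φ : T → ℝ) : Set ℝ := φ '' {t : T | (t : ℝ) ∈ Set.range ((↑) : ℚ → ℝ)}

theorem ratVal_countable (φ : T → ℝ) : (ratVal φ).Countable := by
  refine Set.Countable.image ?_ _
  exact (Set.countable_range _).preimage Subtype.val_injective

end Curve

open Curve in
/-- **CV** -/
theorem exists_par (φ ψ : T → ℝ) (hφ : Continuous φ) (hψ : Continuous ψ)
    (hφ0 : ∀ t : T, φ t = 0 ↔ (t : ℝ) = 0) (hφ1 : ∀ t, 0 ≤ φ t)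
    (hψ0 : ∀ t : T, ψ t = 0 ↔ (t : ℝ) = 0) (hψ1 : ∀ t, 0 ≤ ψ t) :
    ∃ p : Par, φ p.T1 = ψ p.T2 ∧ ∀ t : T, (t : ℝ) < p.t1 → φ t < φ p.T1 := by
  have pos : ∀ (χ : T → ℝ), (∀ t : T, χ t = 0 ↔ (t : ℝ) = 0) → (∀ t, 0 ≤ χ t) →
      0 < χ ⟨1, zero_le_one, le_rfl⟩ := by
    intro χ h1 h2
    refine lt_of_le_of_ne (h2 _) (fun h3 => ?_)
    exact one_ne_zero ((h1 _).1 h3.symm)
  have hm : 0 < min (φ ⟨1, zero_le_one, le_rfl⟩) (ψ ⟨1, zero_le_one, le_rfl⟩) :=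
    lt_min (pos φ hφ0 hφ1) (pos ψ hψ0 hψ1)
  have hcount : (ratVal φ ∪ ratVal ψ).Countable :=
    (ratVal_countable φ).union (ratVal_countable ψ)
  obtain ⟨τ, hτ1, hτ2⟩ := (hcount.dense_compl ℝ).exists_mem_open isOpen_Ioo
    (Set.nonempty_Ioo.2 hm)
  have hτφ : τ < φ ⟨1, zero_le_one, le_rfl⟩ := hτ2.2.trans_le (min_le_left _ _)
  have hτψ : τ < ψ ⟨1, zero_le_one, le_rfl⟩ := hτ2.2.trans_le (min_le_right _ _)
  obtain ⟨t, ht1, ht2⟩ := exists_first φ hφ hφ0 τ hτ2.1 hτφ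
  obtain ⟨s, hs1, hs2⟩ := exists_first ψ hψ hψ0 τ hτ2.1 hτψ
  rw [Set.mem_compl_iff, Set.mem_union, not_or] at hτ1
  have hirr1 : Irrational (t : ℝ) := fun h => hτ1.1 ⟨t, h, ht1⟩
  have hirr2 : Irrational (s : ℝ) := fun h => hτ1.2 ⟨s, h, hs1⟩
  have b : ∀ x : T, Irrational (x : ℝ) → 0 < (x : ℝ) ∧ (x : ℝ) < 1 := by
    intro x hx
    refine ⟨lt_of_le_of_ne x.2.1 (fun h => hx ⟨0, by rw [← h]; simp⟩),
      lt_of_le_of_ne x.2.2 (fun h => hx ⟨1, by rw [h]; simp⟩)⟩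
  refine ⟨⟨t, s, hirr1, hirr2, (b t hirr1).1, (b s hirr2).1, (b t hirr1).2, (b s hirr2).2⟩,
    ?_, ?_⟩
  · change φ t = ψ s
    rw [ht1, hs1]
  · intro x hx
    change φ x < φ t
    rw [ht1]
    exact ht2 x hx

end Pool.Agent.LRetract
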