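import Mathlib

/-!
# Spectra of Abelian lattice-ordered groups and the group of the counterexample (MP_f0bf0c_al)
-/

open Set Filter Topology

namespace Pool.Agent.LRetract

/-! ### The spectrum of an Abelian lattice-ordered group -/

section Spec

variable (G : Type*) [AddCommGroup G] [Lattice G] [IsOrderedAddMonoid G]

/-- A prime `ℓ`-ideal of the Abelian `ℓ`-group `G`: an order-convex `ℓ`-subgroup `P`, different
from `G`, such that `x ⊓ y ∈ P` implies `x ∈ P` or `y ∈ P`. -/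
structure SpecL extends AddSubgroup G where
  inf_mem' : ∀ {x y : G}, x ∈ carrier → y ∈ carrier → x ⊓ y ∈ carrier
  sup_mem' : ∀ {x y : G}, x ∈ carrier → y ∈ carrier → x ⊔ y ∈ carrier
  convex' : ∀ {a b x : G}, a ∈ carrier → b ∈ carrier → a ≤ x → x ≤ b → x ∈ carrier
  ne_top' : ∃ x : G, x ∉ carrier
  prime' : ∀ {x y : G}, x ⊓ y ∈ carrier → x ∈ carrier ∨ y ∈ carrier

variable {G}

instance : SetLike (SpecL G) G where
  coe P := P.carrier
  coe_injective := by
    rintro ⟨⟨⟨⟨a, _⟩, _⟩, _⟩, _, _, _, _, _⟩ ⟨⟨⟨⟨b, _⟩, _⟩, _⟩, _, _, _, _, _⟩ h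
    congr

instance : PartialOrder (SpecL G) :=
  PartialOrder.lift (fun P : SpecL G => (P : Set G)) SetLike.coe_injective

namespace SpecL

theorem ext {P Q : SpecL G} (h : ∀ x, x ∈ P ↔ x ∈ Q) : P = Q := SetLike.ext h

theorem le_def {P Q : SpecL G} : P ≤ Q ↔ ∀ x, x ∈ P → x ∈ Q := Iff.rfl

variable (P : SpecL G)

theorem zero_mem : (0 : G) ∈ P := P.zero_mem'

theorem add_mem {x y : G} (hx : x ∈ P) (hy : y ∈ P) : x + y ∈ P := P.add_mem' hx hy

theorem neg_mem {x : G} (hx : x ∈ P) : -x ∈ P := P.neg_mem' hx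

theorem sub_mem {x y : G} (hx : x ∈ P) (hy : y ∈ P) : x - y ∈ P := by
  rw [sub_eq_add_neg]; exact P.add_mem hx (P.neg_mem hy)

theorem nsmul_mem {x : G} (hx : x ∈ P) (n : ℕ) : n • x ∈ P := P.toAddSubgroup.nsmul_mem hx n

theorem inf_mem {x y : G} (hx : x ∈ P) (hy : y ∈ P) : x ⊓ y ∈ P := P.inf_mem' hx hy

theorem sup_mem {x y : G} (hx : x ∈ P) (hy : y ∈ P) : x ⊔ y ∈ P := P.sup_mem' hx hy

theorem convex {a b x : G} (ha : a ∈ P) (hb : b ∈ P) (h1 : a ≤ x) (h2 : x ≤ b) : x ∈ P :=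
  P.convex' ha hb h1 h2

theorem prime {x y : G} (h : x ⊓ y ∈ P) : x ∈ P ∨ y ∈ P := P.prime' h

theorem abs_mem_iff {x : G} : |x| ∈ P ↔ x ∈ P := by
  constructor
  · intro h
    exact P.convex (P.neg_mem h) h (neg_le.1 (neg_le_abs x)) (le_abs_self x)
  · intro h
    exact P.sup_mem h (P.neg_mem h)

/-- Prime `ℓ`-ideals are solid. -/
theorem solid {x y : G} (hy : y ∈ P) (h : |x| ≤ |y|) : x ∈ P := by
  rw [← P.abs_mem_iff]
  exact P.convex P.zero_mem (P.abs_mem_iff.2 hy) (abs_nonneg x) h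

theorem inf_abs_mem_iff {x y : G} : |x| ⊓ |y| ∈ P ↔ x ∈ P ∨ y ∈ P := by
  constructor
  · intro h
    rcases P.prime h with h | h
    · exact Or.inl (P.abs_mem_iff.1 h)
    · exact Or.inr (P.abs_mem_iff.1 h)
  · have h0 : 0 ≤ |x| ⊓ |y| := le_inf (abs_nonneg x) (abs_nonneg y)
    rintro (h | h)
    · exact P.convex P.zero_mem (P.abs_mem_iff.2 h) h0 inf_le_left
    · exact P.convex P.zero_mem (P.abs_mem_iff.2 h) h0 inf_le_right

theorem sup_abs_mem_iff {x y : G} : |x| ⊔ |y| ∈ P ↔ x ∈ P ∧ y ∈ P := by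
  constructor
  · intro h
    exact ⟨P.abs_mem_iff.1 (P.convex P.zero_mem h (abs_nonneg x) le_sup_left),
      P.abs_mem_iff.1 (P.convex P.zero_mem h (abs_nonneg y) le_sup_right)⟩
  · rintro ⟨h1, h2⟩
    exact P.sup_mem (P.abs_mem_iff.2 h1) (P.abs_mem_iff.2 h2)

end SpecL

/-- The hull-kernel topology: the closed sets are the sets `{P | X ⊆ P}`, `X` a subset of `G`. -/
instance : TopologicalSpace (SpecL G) :=
  TopologicalSpace.ofClosed {C | ∃ X : Set G, C = {P : SpecL G | X ⊆ (P : Set G)}}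
    (by
      refine ⟨Set.univ, ?_⟩
      symm
      rw [Set.eq_empty_iff_forall_notMem]
      intro P hP
      obtain ⟨x, hx⟩ := P.ne_top'
      exact hx (hP (Set.mem_univ x)))
    (by
      intro A hA
      refine ⟨{x | ∀ P ∈ ⋂₀ A, x ∈ P}, ?_⟩
      ext P
      constructor
      · intro hP x hx
        exact hx P hP
      · intro hP C hC
        obtain ⟨X, rfl⟩ := hA hC
        intro x hx
        apply hP
        intro Q hQ
        exact hQ _ hC hx)
    (by
      rintro C ⟨X, rfl⟩ D ⟨Y, rfl⟩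
      refine ⟨{z | ∃ x ∈ X, ∃ y ∈ Y, z = |x| ⊓ |y|}, ?_⟩
      ext P
      constructor
      · rintro (h | h) z ⟨x, hx, y, hy, rfl⟩
        · exact P.inf_abs_mem_iff.2 (Or.inl (h hx))
        · exact P.inf_abs_mem_iff.2 (Or.inr (h hy))
      · intro h
        by_contra hcon
        rw [Set.mem_union, not_or] at hcon
        obtain ⟨h1, h2⟩ := hcon
        obtain ⟨x, hx, hxP⟩ := Set.not_subset.1 h1
        obtain ⟨y, hy, hyP⟩ := Set.not_subset.1 h2
        rcases P.inf_abs_mem_iff.1 (h ⟨x, hx, y, hy, rfl⟩) with h3 | h3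
        · exact hxP h3
        · exact hyP h3)

/-- The closed sets of the spectrum. -/
theorem isClosed_iff {C : Set (SpecL G)} :
    IsClosed C ↔ ∃ X : Set G, C = {P : SpecL G | X ⊆ (P : Set G)} := by
  rw [← isOpen_compl_iff]
  change Cᶜᶜ ∈ {C | ∃ X : Set G, C = {P : SpecL G | X ⊆ (P : Set G)}} ↔ _
  rw [compl_compl]
  rfl

/-- The basic open set of the prime ideals which do not contain `g`. -/
def O (g : G) : Set (SpecL G) := {P | g ∉ P}

theorem mem_O {g : G} {P : SpecL G} : P ∈ O g ↔ g ∉ P := Iff.rfl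

end Spec

/-! ### The indices and the points -/

/-- The unit interval. -/
abbrev T := Set.Icc (0 : ℝ) 1

/-- The parameters: pairs of irrational numbers between `0` and `1`. -/
structure Par where
  t1 : ℝ
  t2 : ℝ
  irr1 : Irrational t1
  irr2 : Irrational t2
  pos1 : 0 < t1
  pos2 : 0 < t2
  lt1 : t1 < 1
  lt2 : t2 < 1

namespace Par

/-- The number `t₁` as a point of the interval. -/
def T1 (p : Par) : T := ⟨p.t1, p.pos1.le, p.lt1.le⟩

/-- The number `t₂` as a point of the interval. -/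
def T2 (p : Par) : T := ⟨p.t2, p.pos2.le, p.lt2.le⟩

/-- The sequence `s_n = t₁ (n + 1) / (n + 2)`, which increases to `t₁`. -/
noncomputable def s (p : Par) (n : ℕ) : T :=
  ⟨p.t1 * (((n : ℝ) + 1) / ((n : ℝ) + 2)), by
    have := p.pos1
    positivity, by
    have h1 : ((n : ℝ) + 1) / ((n : ℝ) + 2) ≤ 1 := by
      rw [div_le_one (by positivity)]
      linarith
    calc p.t1 * (((n : ℝ) + 1) / ((n : ℝ) + 2)) ≤ p.t1 * 1 :=
          mul_le_mul_of_nonneg_left h1 p.pos1.le
      _ ≤ 1 := by rw [mul_one]; exact p.lt1.le⟩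

theorem s_val (p : Par) (n : ℕ) : ((p.s n : T) : ℝ) = p.t1 * (((n : ℝ) + 1) / ((n : ℝ) + 2)) :=
  rfl

theorem s_lt (p : Par) (n : ℕ) : ((p.s n : T) : ℝ) < p.t1 := by
  rw [s_val]
  have h1 : ((n : ℝ) + 1) / ((n : ℝ) + 2) < 1 := by
    rw [div_lt_one (by positivity)]
    linarith
  calc p.t1 * (((n : ℝ) + 1) / ((n : ℝ) + 2)) < p.t1 * 1 :=
        mul_lt_mul_of_pos_left h1 p.pos1
    _ = p.t1 := mul_one _

theorem s_tendsto (p : Par) : Tendsto (fun n => ((p.s n : T) : ℝ)) atTop (𝓝 p.t1) := by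
  have h1 : Tendsto (fun n : ℕ => 1 - 1 / (((n + 1 : ℕ) : ℝ) + 1)) atTop (𝓝 (1 - 0)) :=
    tendsto_const_nhds.sub
      ((tendsto_one_div_add_atTop_nhds_zero_nat (𝕜 := ℝ)).comp (tendsto_add_atTop_nat 1))
  have h2 : (fun n => ((p.s n : T) : ℝ)) =
      fun n : ℕ => p.t1 * (1 - 1 / (((n + 1 : ℕ) : ℝ) + 1)) := by
    funext n
    rw [s_val]
    push_cast
    have : (n : ℝ) + 2 ≠ 0 := by positivity
    field_simp
    ring
  rw [h2]
  simpa using tendsto_const_nhds.mul h1

end Par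

/-- The indices of the second kind. -/
abbrev J := Set (T → ℝ)

/-- The indices of the first kind: all functions from the indices of the second kind to the
parameters. -/
abbrev I := J → Par

/-- The points: an arc for every index of the first kind, an arc for every index of the second
kind, and a sequence for every pair of indices. -/
inductive Om : Type
  | a (ξ : I) (t : T) : Om
  | b (η : J) (t : T) : Om
  | c (ξ : I) (η : J) (n : ℕ) : Om

/-- Continuous functions on the interval which are rational affine functions near every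
irrational point. -/
structure Arc (φ : T → ℝ) : Prop where
  cont : Continuous φ
  germ : ∀ t : T, Irrational (t : ℝ) → ∃ α β : ℚ, ∀ᶠ s in 𝓝 t, φ s = α + β * (s : ℝ)

/-- The functions of the counterexample. -/
structure Good (f : Om → ℝ) : Prop where
  bdd : ∃ K : ℝ, ∀ ω, |f ω| ≤ K
  arcA : ∀ ξ, Arc (fun t => f (.a ξ t))
  arcB : ∀ η, Arc (fun t => f (.b η t))
  germ : ∀ (ξ : I) (η : J), ∃ α β γ : ℚ, ∀ᶠ n in atTop,
    f (.c ξ η n) = α + β * (((ξ η).s n : T) : ℝ) + γ * (ξ η).t2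
  finA : ∃ A : Finset I, ∀ ξ, ξ ∉ A → ∀ (η : J) n, f (.c ξ η n) = f (.b η (ξ η).T2)
  finB : ∃ B : Finset J, ∀ (ξ : I) (η : J), η ∉ B → ∀ n, f (.c ξ η n) = f (.a ξ ((ξ η).s n))

/-! ### Closure properties -/

/-- A rational affine function has constant sign near an irrational point. -/
theorem arc_dich (t : T) (ht : Irrational (t : ℝ)) (α β : ℚ) :
    (∀ᶠ s : T in 𝓝 t, 0 ≤ (α : ℝ) + β * (s : ℝ)) ∨
      (∀ᶠ s : T in 𝓝 t, (α : ℝ) + β * (s : ℝ) ≤ 0) := by
  have hc : Continuous (fun s : T => (α : ℝ) + β * (s : ℝ)) := by fun_prop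
  rcases lt_trichotomy ((α : ℝ) + β * (t : ℝ)) 0 with h | h | h
  · exact Or.inr ((hc.tendsto t).eventually_le_const h)
  · have hβ : β = 0 := by
      by_contra hβ
      apply ht
      refine ⟨-α / β, ?_⟩
      have hβ' : (β : ℝ) ≠ 0 := by exact_mod_cast hβ
      push_cast
      field_simp
      linarith
    subst hβ
    have hα : (α : ℝ) = 0 := by simpa using h
    left
    refine Eventually.of_forall fun s => ?_
    simp [hα]
  · exact Or.inl ((hc.tendsto t).eventually_const_le h)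

/-- A rational affine function of `s_n` and `t₂` has eventually constant sign. -/
theorem seq_dich (p : Par) (α β γ : ℚ) :
    (∀ᶠ n in atTop, 0 ≤ (α : ℝ) + β * ((p.s n : T) : ℝ) + γ * p.t2) ∨
      (∀ᶠ n in atTop, (α : ℝ) + β * ((p.s n : T) : ℝ) + γ * p.t2 ≤ 0) := by
  have hc : Tendsto (fun n => (α : ℝ) + β * ((p.s n : T) : ℝ) + γ * p.t2) atTop
      (𝓝 ((α : ℝ) + β * p.t1 + γ * p.t2)) :=
    (tendsto_const_nhds.add (tendsto_const_nhds.mul p.s_tendsto)).add tendsto_const_nhds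
  rcases lt_trichotomy ((α : ℝ) + β * p.t1 + γ * p.t2) 0 with h | h | h
  · exact Or.inr (hc.eventually_le_const h)
  · have h1 : ∀ n, (α : ℝ) + β * ((p.s n : T) : ℝ) + γ * p.t2
        = β * (((p.s n : T) : ℝ) - p.t1) := by
      intro n
      linear_combination h
    have h2 : ∀ n, ((p.s n : T) : ℝ) - p.t1 ≤ 0 := fun n => by linarith [p.s_lt n]
    rcases le_total (β : ℝ) 0 with hβ | hβ
    · left
      refine Eventually.of_forall fun n => ?_
      rw [h1]
      exact mul_nonneg_of_nonpos_of_nonpos hβ (h2 n)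
    · right
      refine Eventually.of_forall fun n => ?_
      rw [h1]
      exact mul_nonpos_of_nonneg_of_nonpos hβ (h2 n)
  · exact Or.inl (hc.eventually_const_le h)

theorem Arc.const (c : ℚ) : Arc (fun _ => (c : ℝ)) where
  cont := continuous_const
  germ t _ := ⟨c, 0, Eventually.of_forall fun s => by simp⟩

theorem Arc.id : Arc (fun t : T => (t : ℝ)) where
  cont := continuous_subtype_val
  germ t _ := ⟨0, 1, Eventually.of_forall fun s => by simp⟩

theorem Arc.add {φ ψ : T → ℝ} (h : Arc φ) (k : Arc ψ) : Arc (fun t => φ t + ψ t) where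
  cont := h.cont.add k.cont
  germ t ht := by
    obtain ⟨α, β, h1⟩ := h.germ t ht
    obtain ⟨α', β', h2⟩ := k.germ t ht
    refine ⟨α + α', β + β', ?_⟩
    filter_upwards [h1, h2] with s a b
    rw [a, b]
    push_cast
    ring

theorem Arc.neg {φ : T → ℝ} (h : Arc φ) : Arc (fun t => -φ t) where
  cont := h.cont.neg
  germ t ht := by
    obtain ⟨α, β, h1⟩ := h.germ t ht
    refine ⟨-α, -β, ?_⟩
    filter_upwards [h1] with s a
    rw [a]
    push_cast
    ring

theorem Arc.sup {φ ψ : T → ℝ} (h : Arc φ) (k : Arc ψ) : Arc (fun t => φ t ⊔ ψ t) where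
  cont := h.cont.sup k.cont
  germ t ht := by
    obtain ⟨α, β, h1⟩ := h.germ t ht
    obtain ⟨α', β', h2⟩ := k.germ t ht
    rcases arc_dich t ht (α - α') (β - β') with h3 | h3
    · refine ⟨α, β, ?_⟩
      filter_upwards [h1, h2, h3] with s a b c
      rw [a, b]
      apply sup_eq_left.2
      push_cast at c
      linarith
    · refine ⟨α', β', ?_⟩
      filter_upwards [h1, h2, h3] with s a b c
      rw [a, b]
      apply sup_eq_right.2
      push_cast at c
      linarith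

theorem Good.zero : Good 0 where
  bdd := ⟨0, fun ω => by simp⟩
  arcA _ := by simpa using Arc.const 0
  arcB _ := by simpa using Arc.const 0
  germ _ _ := ⟨0, 0, 0, Eventually.of_forall fun n => by simp⟩
  finA := ⟨∅, fun _ _ _ _ => rfl⟩
  finB := ⟨∅, fun _ _ _ _ => rfl⟩

open Classical in
theorem Good.add {f g : Om → ℝ} (hf : Good f) (hg : Good g) : Good (f + g) where
  bdd := by
    obtain ⟨K, hK⟩ := hf.bdd
    obtain ⟨L, hL⟩ := hg.bdd
    exact ⟨K + L, fun ω => (abs_add_le _ _).trans (add_le_add (hK ω) (hL ω))⟩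
  arcA ξ := (hf.arcA ξ).add (hg.arcA ξ)
  arcB η := (hf.arcB η).add (hg.arcB η)
  germ ξ η := by
    obtain ⟨α, β, γ, h1⟩ := hf.germ ξ η
    obtain ⟨α', β', γ', h2⟩ := hg.germ ξ η
    refine ⟨α + α', β + β', γ + γ', ?_⟩
    filter_upwards [h1, h2] with n a b
    rw [Pi.add_apply, a, b]
    push_cast
    ring
  finA := by
    obtain ⟨A, hA⟩ := hf.finA
    obtain ⟨B, hB⟩ := hg.finA
    refine ⟨A ∪ B, fun ξ hξ η n => ?_⟩
    rw [Finset.mem_union, not_or] at hξ
    rw [Pi.add_apply, Pi.add_apply, hA ξ hξ.1, hB ξ hξ.2]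
  finB := by
    obtain ⟨A, hA⟩ := hf.finB
    obtain ⟨B, hB⟩ := hg.finB
    refine ⟨A ∪ B, fun ξ η hη n => ?_⟩
    rw [Finset.mem_union, not_or] at hη
    rw [Pi.add_apply, Pi.add_apply, hA ξ η hη.1, hB ξ η hη.2]

theorem Good.neg {f : Om → ℝ} (hf : Good f) : Good (-f) where
  bdd := by
    obtain ⟨K, hK⟩ := hf.bdd
    exact ⟨K, fun ω => by rw [Pi.neg_apply, abs_neg]; exact hK ω⟩
  arcA ξ := (hf.arcA ξ).neg
  arcB η := (hf.arcB η).neg
  germ ξ η := by
    obtain ⟨α, β, γ, h1⟩ := hf.germ ξ η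
    refine ⟨-α, -β, -γ, ?_⟩
    filter_upwards [h1] with n a
    rw [Pi.neg_apply, a]
    push_cast
    ring
  finA := by
    obtain ⟨A, hA⟩ := hf.finA
    refine ⟨A, fun ξ hξ η n => ?_⟩
    rw [Pi.neg_apply, Pi.neg_apply, hA ξ hξ]
  finB := by
    obtain ⟨A, hA⟩ := hf.finB
    refine ⟨A, fun ξ η hη n => ?_⟩
    rw [Pi.neg_apply, Pi.neg_apply, hA ξ η hη]

open Classical in
theorem Good.sup {f g : Om → ℝ} (hf : Good f) (hg : Good g) : Good (f ⊔ g) where
  bdd := by
    obtain ⟨K, hK⟩ := hf.bdd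
    obtain ⟨L, hL⟩ := hg.bdd
    refine ⟨max K L, fun ω => ?_⟩
    rw [Pi.sup_apply]
    rcases le_total (f ω) (g ω) with h | h
    · rw [sup_eq_right.2 h]; exact (hL ω).trans (le_max_right _ _)
    · rw [sup_eq_left.2 h]; exact (hK ω).trans (le_max_left _ _)
  arcA ξ := (hf.arcA ξ).sup (hg.arcA ξ)
  arcB η := (hf.arcB η).sup (hg.arcB η)
  germ ξ η := by
    obtain ⟨α, β, γ, h1⟩ := hf.germ ξ η
    obtain ⟨α', β', γ', h2⟩ := hg.germ ξ η
    rcases seq_dich (ξ η) (α - α') (β - β') (γ - γ') with h3 | h3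
    · refine ⟨α, β, γ, ?_⟩
      filter_upwards [h1, h2, h3] with s a b c
      rw [Pi.sup_apply, a, b]
      apply sup_eq_left.2
      push_cast at c
      linarith
    · refine ⟨α', β', γ', ?_⟩
      filter_upwards [h1, h2, h3] with s a b c
      rw [Pi.sup_apply, a, b]
      apply sup_eq_right.2
      push_cast at c
      linarith
  finA := by
    obtain ⟨A, hA⟩ := hf.finA
    obtain ⟨B, hB⟩ := hg.finA
    refine ⟨A ∪ B, fun ξ hξ η n => ?_⟩
    rw [Finset.mem_union, not_or] at hξ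
    rw [Pi.sup_apply, Pi.sup_apply, hA ξ hξ.1, hB ξ hξ.2]
  finB := by
    obtain ⟨A, hA⟩ := hf.finB
    obtain ⟨B, hB⟩ := hg.finB
    refine ⟨A ∪ B, fun ξ η hη n => ?_⟩
    rw [Finset.mem_union, not_or] at hη
    rw [Pi.sup_apply, Pi.sup_apply, hA ξ η hη.1, hB ξ η hη.2]

theorem Good.inf {f g : Om → ℝ} (hf : Good f) (hg : Good g) : Good (f ⊓ g) := by
  have h : f ⊓ g = -((-f) ⊔ (-g)) := by
    funext ω
    simp only [Pi.inf_apply, Pi.neg_apply, Pi.sup_apply]
    rcases le_total (f ω) (g ω) with h | h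
    · rw [inf_eq_left.2 h, sup_eq_left.2 (neg_le_neg h), neg_neg]
    · rw [inf_eq_right.2 h, sup_eq_right.2 (neg_le_neg h), neg_neg]
  rw [h]
  exact (hf.neg.sup hg.neg).neg

/-- The group of the counterexample. -/
def HH : AddSubgroup (Om → ℝ) where
  carrier := {f | Good f}
  add_mem' := Good.add
  zero_mem' := Good.zero
  neg_mem' := Good.neg

/-- The lattice-ordered group of the counterexample (pointwise operations). -/
abbrev H := ↥HH

instance : Lattice H :=
  Subtype.lattice (P := fun f : Om → ℝ => f ∈ HH) (fun _ _ hf hg => Good.sup hf hg)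
    (fun _ _ hf hg => Good.inf hf hg)

instance : IsOrderedAddMonoid H where
  add_le_add_left := fun a b h c ω => by
    have : (a : Om → ℝ) ω ≤ (b : Om → ℝ) ω := h ω
    change (a : Om → ℝ) ω + (c : Om → ℝ) ω ≤ (b : Om → ℝ) ω + (c : Om → ℝ) ω
    linarith

theorem H.good (f : H) : Good (f : Om → ℝ) := f.2

@[simp] theorem H.sup_apply (f g : H) (ω : Om) : (f ⊔ g).1 ω = f.1 ω ⊔ g.1 ω := rfl

@[simp] theorem H.inf_apply (f g : H) (ω : Om) : (f ⊓ g).1 ω = f.1 ω ⊓ g.1 ω := rfl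

@[simp] theorem H.add_apply (f g : H) (ω : Om) : (f + g).1 ω = f.1 ω + g.1 ω := rfl

@[simp] theorem H.sub_apply (f g : H) (ω : Om) : (f - g).1 ω = f.1 ω - g.1 ω := rfl

@[simp] theorem H.neg_apply (f : H) (ω : Om) : (-f).1 ω = -(f.1 ω) := rfl

@[simp] theorem H.zero_apply (ω : Om) : (0 : H).1 ω = 0 := rfl

@[simp] theorem H.abs_apply (f : H) (ω : Om) : (|f|).1 ω = |f.1 ω| := rfl

@[simp] theorem H.nsmul_apply (n : ℕ) (f : H) (ω : Om) : (n • f).1 ω = n * f.1 ω := by
  induction n with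
  | zero => simp
  | succ k ih => rw [succ_nsmul, H.add_apply, ih]; push_cast; ring

theorem H.le_iff (f g : H) : f ≤ g ↔ ∀ ω, f.1 ω ≤ g.1 ω := Iff.rfl

/-! ### Special elements -/

/-- The constant function one. -/
noncomputable def one : H := ⟨fun _ => 1, {
  bdd := ⟨1, fun ω => by simp⟩
  arcA := fun _ => by simpa using Arc.const 1
  arcB := fun _ => by simpa using Arc.const 1
  germ := fun _ _ => ⟨1, 0, 0, Eventually.of_forall fun n => by simp⟩
  finA := ⟨∅, fun _ _ _ _ => rfl⟩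
  finB := ⟨∅, fun _ _ _ _ => rfl⟩ }⟩

open Classical in
/-- The coordinate function of an arc of the first kind. -/
noncomputable def eA (ξ : I) : H := ⟨fun ω => match ω with
    | .a ξ' t => if ξ' = ξ then (t : ℝ) else 0
    | .b _ _ => 0
    | .c ξ' η n => if ξ' = ξ then (((ξ' η).s n : T) : ℝ) else 0, {
  bdd := ⟨1, fun ω => by
    rcases ω with ⟨ξ', t⟩ | ⟨η, t⟩ | ⟨ξ', η, n⟩
    · by_cases h : ξ' = ξ
      · simp only [h, if_true]; rw [abs_of_nonneg t.2.1]; exact t.2.2
      · simp [h]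
    · simp
    · by_cases h : ξ' = ξ
      · simp only [h, if_true]; rw [abs_of_nonneg (((ξ η).s n).2.1)]; exact ((ξ η).s n).2.2
      · simp [h]⟩
  arcA := fun ξ' => by
    by_cases h : ξ' = ξ
    · simpa [h] using Arc.id
    · simpa [h] using Arc.const 0
  arcB := fun _ => by simpa using Arc.const 0
  germ := fun ξ' η => by
    by_cases h : ξ' = ξ
    · exact ⟨0, 1, 0, Eventually.of_forall fun n => by simp [h]⟩
    · exact ⟨0, 0, 0, Eventually.of_forall fun n => by simp [h]⟩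
  finA := ⟨{ξ}, fun ξ' h _ _ => by
    rw [Finset.mem_singleton] at h
    simp [h]⟩
  finB := ⟨∅, fun ξ' η _ n => rfl⟩ }⟩

open Classical in
/-- The coordinate function of an arc of the second kind. -/
noncomputable def eB (η : J) : H := ⟨fun ω => match ω with
    | .a _ _ => 0
    | .b η' t => if η' = η then (t : ℝ) else 0
    | .c ξ η' _ => if η' = η then (ξ η').t2 else 0, {
  bdd := ⟨1, fun ω => by
    rcases ω with ⟨ξ', t⟩ | ⟨η', t⟩ | ⟨ξ', η', n⟩
    · simp
    · by_cases h : η' = η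
      · simp only [h, if_true]; rw [abs_of_nonneg t.2.1]; exact t.2.2
      · simp [h]
    · by_cases h : η' = η
      · simp only [h, if_true]; rw [abs_of_pos (ξ' η).pos2]; exact (ξ' η).lt2.le
      · simp [h]⟩
  arcA := fun _ => by simpa using Arc.const 0
  arcB := fun η' => by
    by_cases h : η' = η
    · simpa [h] using Arc.id
    · simpa [h] using Arc.const 0
  germ := fun ξ' η' => by
    by_cases h : η' = η
    · exact ⟨0, 0, 1, Eventually.of_forall fun n => by simp [h]⟩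
    · exact ⟨0, 0, 0, Eventually.of_forall fun n => by simp [h]⟩
  finA := ⟨∅, fun ξ' _ η' n => rfl⟩
  finB := ⟨{η}, fun ξ' η' h _ => by
    rw [Finset.mem_singleton] at h
    simp [h]⟩ }⟩

open Classical in
/-- The characteristic function of a set `S` of points `(ξ, η, n)` of one sequence; `S` is finite
or cofinite. -/
noncomputable def chi (ξ : I) (η : J) (S : Set ℕ)
    (hS : (∀ᶠ n in atTop, n ∈ S) ∨ (∀ᶠ n in atTop, n ∉ S)) : H := ⟨fun ω => match ω with
    | .a _ _ => 0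
    | .b _ _ => 0
    | .c ξ' η' n => if ξ' = ξ ∧ η' = η ∧ n ∈ S then 1 else 0, {
  bdd := ⟨1, fun ω => by
    rcases ω with ⟨ξ', t⟩ | ⟨η', t⟩ | ⟨ξ', η', n⟩
    · simp
    · simp
    · by_cases h : ξ' = ξ ∧ η' = η ∧ n ∈ S
      · simp [h]
      · simp only [h, if_false]; simp⟩
  arcA := fun _ => by simpa using Arc.const 0
  arcB := fun _ => by simpa using Arc.const 0
  germ := fun ξ' η' => by
    by_cases h : ξ' = ξ ∧ η' = η
    · rcases hS with hS | hS
      · refine ⟨1, 0, 0, ?_⟩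
        filter_upwards [hS] with n hn
        simp [h, hn]
      · refine ⟨0, 0, 0, ?_⟩
        filter_upwards [hS] with n hn
        simp [hn]
    · refine ⟨0, 0, 0, Eventually.of_forall fun n => ?_⟩
      have : ¬ (ξ' = ξ ∧ η' = η ∧ n ∈ S) := fun h' => h ⟨h'.1, h'.2.1⟩
      simp only [this, if_false]
      simp
  finA := ⟨{ξ}, fun ξ' h _ _ => by
    rw [Finset.mem_singleton] at h
    simp [h]⟩
  finB := ⟨{η}, fun ξ' η' h _ => by
    rw [Finset.mem_singleton] at h
    simp [h]⟩ }⟩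

end Pool.Agent.LRetract
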