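import Pool.Agent.LRetract.Defs

/-!
# The points of the spectrum of the group `H`, the subspace `Y` and the retraction `r`
-/

open Set Filter Topology

namespace Pool.Agent.LRetract

theorem one_apply (ω : Om) : one.1 ω = 1 := rfl

open Classical in
theorem eA_a (ξ ξ' : I) (t : T) : (eA ξ).1 (.a ξ' t) = if ξ' = ξ then (t : ℝ) else 0 := rfl

theorem eA_b (ξ : I) (η : J) (t : T) : (eA ξ).1 (.b η t) = 0 := rfl

open Classical in
theorem eA_c (ξ ξ' : I) (η : J) (n : ℕ) :
    (eA ξ).1 (.c ξ' η n) = if ξ' = ξ then (((ξ' η).s n : T) : ℝ) else 0 := rfl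

theorem eB_a (η : J) (ξ : I) (t : T) : (eB η).1 (.a ξ t) = 0 := rfl

open Classical in
theorem eB_b (η η' : J) (t : T) : (eB η).1 (.b η' t) = if η' = η then (t : ℝ) else 0 := rfl

open Classical in
theorem eB_c (η : J) (ξ : I) (η' : J) (n : ℕ) :
    (eB η).1 (.c ξ η' n) = if η' = η then (ξ η').t2 else 0 := rfl

theorem chi_a (ξ : I) (η : J) (S : Set ℕ) (hS) (ξ' : I) (t : T) :
    (chi ξ η S hS).1 (.a ξ' t) = 0 := rfl

theorem chi_b (ξ : I) (η : J) (S : Set ℕ) (hS) (η' : J) (t : T) :
    (chi ξ η S hS).1 (.b η' t) = 0 := rfl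

open Classical in
theorem chi_c (ξ : I) (η : J) (S : Set ℕ) (hS) (ξ' : I) (η' : J) (n : ℕ) :
    (chi ξ η S hS).1 (.c ξ' η' n) = if ξ' = ξ ∧ η' = η ∧ n ∈ S then 1 else 0 := rfl

/-- The difference of two elements of `H` has eventually constant sign along every sequence. -/
theorem H.dich (f g : H) (ξ : I) (η : J) :
    (∀ᶠ n in atTop, g.1 (.c ξ η n) ≤ f.1 (.c ξ η n)) ∨
      (∀ᶠ n in atTop, f.1 (.c ξ η n) ≤ g.1 (.c ξ η n)) := by
  obtain ⟨α, β, γ, h⟩ := (f - g).good.germ ξ η
  rcases seq_dich (ξ η) α β γ with h1 | h1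
  · left
    filter_upwards [h, h1] with n a b
    have : (f - g).1 (.c ξ η n) = f.1 (.c ξ η n) - g.1 (.c ξ η n) := rfl
    rw [← a, this] at b
    linarith
  · right
    filter_upwards [h, h1] with n a b
    have : (f - g).1 (.c ξ η n) = f.1 (.c ξ η n) - g.1 (.c ξ η n) := rfl
    rw [← a, this] at b
    linarith

/-- The prime ideal of the functions which vanish at the point `ω`. -/
def pt (ω : Om) : SpecL H where
  carrier := {f | f.1 ω = 0}
  add_mem' := by
    intro f g hf hg
    change f.1 ω + g.1 ω = 0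
    rw [show f.1 ω = 0 from hf, show g.1 ω = 0 from hg, add_zero]
  zero_mem' := rfl
  neg_mem' := by
    intro f hf
    change -(f.1 ω) = 0
    rw [show f.1 ω = 0 from hf, neg_zero]
  inf_mem' := by
    intro f g hf hg
    change f.1 ω ⊓ g.1 ω = 0
    rw [show f.1 ω = 0 from hf, show g.1 ω = 0 from hg, inf_idem]
  sup_mem' := by
    intro f g hf hg
    change f.1 ω ⊔ g.1 ω = 0
    rw [show f.1 ω = 0 from hf, show g.1 ω = 0 from hg, sup_idem]
  convex' := by
    intro f g x hf hg h1 h2
    have a : f.1 ω ≤ x.1 ω := h1 ω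
    have b : x.1 ω ≤ g.1 ω := h2 ω
    rw [show f.1 ω = 0 from hf] at a
    rw [show g.1 ω = 0 from hg] at b
    exact le_antisymm b a
  ne_top' := ⟨one, fun h => one_ne_zero (show (1 : ℝ) = 0 from h)⟩
  prime' := by
    intro f g h
    have h' : f.1 ω ⊓ g.1 ω = 0 := h
    rcases le_total (f.1 ω) (g.1 ω) with h1 | h1
    · rw [inf_eq_left.2 h1] at h'; exact Or.inl h'
    · rw [inf_eq_right.2 h1] at h'; exact Or.inr h'

theorem mem_pt {ω : Om} {f : H} : f ∈ pt ω ↔ f.1 ω = 0 := Iff.rfl

/-- The prime ideal of the functions which vanish eventually along the sequence `(ξ, η, n)`. -/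
def W (ξ : I) (η : J) : SpecL H where
  carrier := {f | ∀ᶠ n in atTop, f.1 (.c ξ η n) = 0}
  add_mem' := by
    intro f g hf hg
    filter_upwards [hf, hg] with n a b
    rw [H.add_apply, a, b, add_zero]
  zero_mem' := Eventually.of_forall fun _ => rfl
  neg_mem' := by
    intro f hf
    filter_upwards [hf] with n a
    rw [H.neg_apply, a, neg_zero]
  inf_mem' := by
    intro f g hf hg
    filter_upwards [hf, hg] with n a b
    rw [H.inf_apply, a, b, inf_idem]
  sup_mem' := by
    intro f g hf hg
    filter_upwards [hf, hg] with n a b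
    rw [H.sup_apply, a, b, sup_idem]
  convex' := by
    intro f g x hf hg h1 h2
    filter_upwards [hf, hg] with n a b
    have c := h1 (.c ξ η n)
    have d := h2 (.c ξ η n)
    rw [a] at c
    rw [b] at d
    exact le_antisymm d c
  ne_top' := by
    refine ⟨one, fun h => ?_⟩
    obtain ⟨n, hn⟩ := h.exists
    exact one_ne_zero (show (1 : ℝ) = 0 from hn)
  prime' := by
    intro f g h
    rcases H.dich f g ξ η with h1 | h1
    · right
      filter_upwards [h, h1] with n a b
      rw [H.inf_apply, inf_eq_right.2 b] at a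
      exact a
    · left
      filter_upwards [h, h1] with n a b
      rw [H.inf_apply, inf_eq_left.2 b] at a
      exact a

theorem mem_W {ξ : I} {η : J} {f : H} : f ∈ W ξ η ↔ ∀ᶠ n in atTop, f.1 (.c ξ η n) = 0 := Iff.rfl

/-- The prime ideal of the functions which tend to zero along the sequence `(ξ, η, n)`. -/
def M (ξ : I) (η : J) : SpecL H where
  carrier := {f | Tendsto (fun n => f.1 (.c ξ η n)) atTop (𝓝 0)}
  add_mem' := by
    intro f g hf hg
    have := Filter.Tendsto.add hf hg
    rw [add_zero] at this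
    exact this
  zero_mem' := tendsto_const_nhds
  neg_mem' := by
    intro f hf
    have := Filter.Tendsto.neg hf
    rw [neg_zero] at this
    exact this
  inf_mem' := by
    intro f g hf hg
    have := Filter.Tendsto.inf_nhds hf hg
    rw [inf_idem] at this
    exact this
  sup_mem' := by
    intro f g hf hg
    have := Filter.Tendsto.sup_nhds hf hg
    rw [sup_idem] at this
    exact this
  convex' := by
    intro f g x hf hg h1 h2
    exact tendsto_of_tendsto_of_tendsto_of_le_of_le hf hg (fun n => h1 _) (fun n => h2 _)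
  ne_top' := by
    refine ⟨one, fun h => ?_⟩
    have h1 : Tendsto (fun _ : ℕ => (1 : ℝ)) atTop (𝓝 0) := h
    exact one_ne_zero (tendsto_nhds_unique tendsto_const_nhds h1)
  prime' := by
    intro f g h
    rcases H.dich f g ξ η with h1 | h1
    · right
      refine Filter.Tendsto.congr' ?_ h
      filter_upwards [h1] with n b
      rw [H.inf_apply, inf_eq_right.2 b]
    · left
      refine Filter.Tendsto.congr' ?_ h
      filter_upwards [h1] with n b
      rw [H.inf_apply, inf_eq_left.2 b]

theorem mem_M {ξ : I} {η : J} {f : H} :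
    f ∈ M ξ η ↔ Tendsto (fun n => f.1 (.c ξ η n)) atTop (𝓝 0) := Iff.rfl

theorem W_le_M (ξ : I) (η : J) : W ξ η ≤ M ξ η := by
  intro f hf
  have hf' : ∀ᶠ n in atTop, f.1 (.c ξ η n) = 0 := hf
  refine Filter.Tendsto.congr' (f₁ := fun _ => (0 : ℝ)) ?_ tendsto_const_nhds
  filter_upwards [hf'] with n a
  exact a.symm

/-- The subspace `Y` of the spectrum: the points `M ξ η` are removed, except when they are equal
to `W ξ η`. -/
def Y : Set (SpecL H) := {P | ∀ (ξ : I) (η : J), P = M ξ η → W ξ η = P}

open Classical in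
/-- The retraction, which maps `M ξ η` to `W ξ η` and every other point to itself. -/
noncomputable def r (P : SpecL H) : SpecL H :=
  if h : ∃ x : I × J, P = M x.1 x.2 then W h.choose.1 h.choose.2 else P

/-- The characteristic function of the points `(ξ, η, n)`, `n ≥ N`. -/
noncomputable def tail (ξ : I) (η : J) (N : ℕ) : H :=
  chi ξ η {n | N ≤ n} (Or.inl (eventually_ge_atTop N))

/-- The characteristic function of the point `(ξ, η, k)`. -/
noncomputable def delta (ξ : I) (η : J) (k : ℕ) : H :=
  chi ξ η {k} (Or.inr (by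
    filter_upwards [eventually_gt_atTop k] with n hn
    simp only [Set.mem_singleton_iff]
    omega))

end Pool.Agent.LRetract
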