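import Pool.Agent.LRetract.Defs2

/-!
# MP_f0bf0c_al : the real valuation at a closed point of the spectrum
-/

open Set Filter Topology

namespace Pool.Agent.LRetract

section General

variable {G : Type*} [AddCommGroup G] [Lattice G] [IsOrderedAddMonoid G]

namespace REAux

theorem mem_of_nonneg_le (P : SpecL G) {x y : G} (h0 : 0 ≤ x) (h : x ≤ y) (hy : y ∈ P) : x ∈ P :=
  P.convex P.zero_mem hy h0 h

theorem neg_sup_add (x y : G) : -(x + y) ⊔ 0 ≤ (-x ⊔ 0) + (-y ⊔ 0) := by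
  apply sup_le
  · rw [neg_add]
    exact add_le_add le_sup_left le_sup_left
  · exact add_nonneg le_sup_right le_sup_right

theorem congr_nn (P : SpecL G) {x y : G} (hxy : y - x ∈ P) (hx : -x ⊔ 0 ∈ P) : -y ⊔ 0 ∈ P := by
  have h1 : -(y - x) ⊔ 0 ∈ P := P.sup_mem (P.neg_mem hxy) P.zero_mem
  have h2 := neg_sup_add x (y - x)
  rw [add_sub_cancel] at h2
  exact mem_of_nonneg_le P le_sup_right h2 (P.add_mem hx h1)

/-- The cone of the quotient. -/
def cone (P : SpecL G) : AddGroupCone (G ⧸ P.toAddSubgroup) where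
  carrier := {a | ∃ x : G, (QuotientAddGroup.mk x : G ⧸ P.toAddSubgroup) = a ∧ -x ⊔ 0 ∈ P}
  add_mem' := by
    rintro _ _ ⟨x, rfl, hx⟩ ⟨y, rfl, hy⟩
    exact ⟨x + y, rfl, mem_of_nonneg_le P le_sup_right (neg_sup_add x y) (P.add_mem hx hy)⟩
  zero_mem' := ⟨0, rfl, by rw [neg_zero, sup_idem]; exact P.zero_mem⟩
  eq_zero_of_mem_of_neg_mem' := by
    rintro _ ⟨x, rfl, hx⟩ ⟨y, hy, hy'⟩
    rw [← QuotientAddGroup.mk_neg, QuotientAddGroup.eq] at hy
    have h1 : -(-x) ⊔ 0 ∈ P := by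
      refine congr_nn P (x := y) ?_ hy'
      have : -y + -x ∈ P := hy
      have h2 : -x - y = -y + -x := by abel
      rw [h2]
      exact this
    rw [neg_neg] at h1
    rw [QuotientAddGroup.eq_zero_iff]
    have h3 : x = (x ⊔ 0) - (-x ⊔ 0) := by
      have := posPart_sub_negPart x
      exact this.symm
    have h4 : (x ⊔ 0) - (-x ⊔ 0) ∈ P := P.sub_mem h1 hx
    rw [← h3] at h4
    exact h4

/-- The quotient by a prime ideal. -/
def Quo (P : SpecL G) : Type _ := G ⧸ P.toAddSubgroup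

instance (P : SpecL G) : AddCommGroup (Quo P) := inferInstanceAs (AddCommGroup (G ⧸ P.toAddSubgroup))

/-- The quotient map. -/
def mk (P : SpecL G) : G →+ Quo P := QuotientAddGroup.mk' P.toAddSubgroup

theorem mk_surj (P : SpecL G) (a : Quo P) : ∃ x, mk P x = a := QuotientAddGroup.mk'_surjective _ a

/-- The cone of the quotient. -/
def cone' (P : SpecL G) : AddGroupCone (Quo P) := cone P

theorem mk_mem_cone' (P : SpecL G) (x : G) : mk P x ∈ cone' P ↔ -x ⊔ 0 ∈ P := by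
  constructor
  · rintro ⟨y, hy, hy'⟩
    have h1 : (QuotientAddGroup.mk y : G ⧸ P.toAddSubgroup) = QuotientAddGroup.mk x := hy
    rw [QuotientAddGroup.eq] at h1
    refine congr_nn P (x := y) ?_ hy'
    have : -y + x ∈ P := h1
    rw [sub_eq_neg_add]
    exact this
  · intro h
    exact ⟨x, rfl, h⟩

instance (P : SpecL G) : HasMemOrNegMem (cone' P) where
  mem_or_neg_mem a := by
    obtain ⟨x, rfl⟩ := mk_surj P a
    have h1 : (x ⊔ 0) ⊓ (-x ⊔ 0) = 0 := posPart_inf_negPart_eq_zero x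
    have h2 : (x ⊔ 0) ⊓ (-x ⊔ 0) ∈ P := by rw [h1]; exact P.zero_mem
    rcases P.prime h2 with h | h
    · right
      rw [← map_neg, mk_mem_cone', neg_neg]
      exact h
    · left
      rw [mk_mem_cone']
      exact h

open Classical in
noncomputable instance (P : SpecL G) : LinearOrder (Quo P) := LinearOrder.mkOfAddGroupCone (cone' P)

instance (P : SpecL G) : IsOrderedAddMonoid (Quo P) := IsOrderedAddMonoid.mkOfCone (cone' P)

theorem le_iff (P : SpecL G) (x y : G) : mk P x ≤ mk P y ↔ (x - y) ⊔ 0 ∈ P := by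
  change mk P y - mk P x ∈ cone' P ↔ _
  rw [← map_sub, mk_mem_cone', neg_sub]

theorem mk_eq_zero (P : SpecL G) (x : G) : mk P x = 0 ↔ x ∈ P :=
  QuotientAddGroup.eq_zero_iff x

theorem mk_mono (P : SpecL G) {x y : G} (h : x ≤ y) : mk P x ≤ mk P y := by
  rw [le_iff]
  have : (x - y) ⊔ 0 = 0 := sup_eq_right.2 (sub_nonpos.2 h)
  rw [this]
  exact P.zero_mem

theorem mk_sup (P : SpecL G) (x y : G) : mk P (x ⊔ y) = mk P x ∨ mk P (x ⊔ y) = mk P y := by
  rcases le_total (mk P x) (mk P y) with h | h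
  · right
    rw [le_iff] at h
    rw [← sub_eq_zero, ← map_sub, mk_eq_zero]
    have : x ⊔ y - y = (x - y) ⊔ 0 := by rw [sup_sub, sub_self]
    rw [this]
    exact h
  · left
    rw [le_iff] at h
    rw [← sub_eq_zero, ← map_sub, mk_eq_zero]
    have : x ⊔ y - x = (y - x) ⊔ 0 := by rw [sup_sub, sub_self, sup_comm]
    rw [this]
    exact h

theorem mk_inf (P : SpecL G) (x y : G) : mk P (x ⊓ y) = mk P x ∨ mk P (x ⊓ y) = mk P y := by
  have h : x ⊓ y = -(-x ⊔ -y) := by rw [neg_sup, neg_neg, neg_neg]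
  rw [h, map_neg]
  rcases mk_sup P (-x) (-y) with h | h
  · left; rw [h, map_neg, neg_neg]
  · right; rw [h, map_neg, neg_neg]

/-- The ideal generated by `P` and `y`. -/
def gen (P : SpecL G) (y z : G) (hz : ∀ n : ℕ, ¬ |mk P z| ≤ n • |mk P y|) : SpecL G where
  carrier := {x | ∃ n : ℕ, |mk P x| ≤ n • |mk P y|}
  add_mem' := by
    rintro a b ⟨n, hn⟩ ⟨m, hm⟩
    refine ⟨n + m, ?_⟩
    rw [map_add, add_nsmul]
    exact (abs_add_le _ _).trans (add_le_add hn hm)
  zero_mem' := ⟨0, by simp⟩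
  neg_mem' := by
    rintro a ⟨n, hn⟩
    exact ⟨n, by rw [map_neg, abs_neg]; exact hn⟩
  inf_mem' := by
    rintro a b ha hb
    rcases mk_inf P a b with h | h
    · change ∃ n : ℕ, |mk P (a ⊓ b)| ≤ n • |mk P y|
      rw [h]; exact ha
    · change ∃ n : ℕ, |mk P (a ⊓ b)| ≤ n • |mk P y|
      rw [h]; exact hb
  sup_mem' := by
    rintro a b ha hb
    rcases mk_sup P a b with h | h
    · change ∃ n : ℕ, |mk P (a ⊔ b)| ≤ n • |mk P y|
      rw [h]; exact ha
    · change ∃ n : ℕ, |mk P (a ⊔ b)| ≤ n • |mk P y|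
      rw [h]; exact hb
  convex' := by
    rintro a b x ⟨n, hn⟩ ⟨m, hm⟩ h1 h2
    refine ⟨n + m, ?_⟩
    rw [add_nsmul]
    have e1 := mk_mono P h1
    have e2 := mk_mono P h2
    have e3 : 0 ≤ n • |mk P y| := nsmul_nonneg (abs_nonneg _) _
    have e4 : 0 ≤ m • |mk P y| := nsmul_nonneg (abs_nonneg _) _
    rw [abs_le]
    rw [abs_le] at hn hm
    constructor
    · calc -(n • |mk P y| + m • |mk P y|) ≤ -(n • |mk P y|) := by
            rw [neg_le_neg_iff]; exact le_add_of_nonneg_right e4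
        _ ≤ mk P a := hn.1
        _ ≤ mk P x := e1
    · calc mk P x ≤ mk P b := e2
        _ ≤ m • |mk P y| := hm.2
        _ ≤ _ := le_add_of_nonneg_left e3
  ne_top' := ⟨z, fun ⟨n, hn⟩ => hz n hn⟩
  prime' := by
    rintro a b ⟨n, hn⟩
    rcases mk_inf P a b with h | h
    · rw [h] at hn; exact Or.inl ⟨n, hn⟩
    · rw [h] at hn; exact Or.inr ⟨n, hn⟩

theorem archimedean {P : SpecL G} (hP : ∀ Q : SpecL G, P ≤ Q → Q = P) : Archimedean (Quo P) where
  arch := by
    intro a b hb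
    obtain ⟨z, rfl⟩ := mk_surj P a
    obtain ⟨y, rfl⟩ := mk_surj P b
    by_contra hcon
    push Not at hcon
    have hz : ∀ n : ℕ, ¬ |mk P z| ≤ n • |mk P y| := by
      intro n hn
      rw [abs_of_pos hb] at hn
      exact absurd ((le_abs_self _).trans hn) (not_le.2 (hcon n))
    have h1 := hP (gen P y z hz) (fun x hx => ⟨0, by
      rw [(mk_eq_zero P x).2 hx]; simp⟩)
    have h2 : y ∈ gen P y z hz := ⟨1, by rw [one_nsmul]⟩
    rw [h1] at h2
    exact hb.ne' ((mk_eq_zero P y).2 h2)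

end REAux

open REAux

/-- The real valuation at a closed point, normalised at `u`. -/
theorem exists_real {P : SpecL G} (hP : ∀ Q : SpecL G, P ≤ Q → Q = P) (u : G) (hu : 0 ≤ u)
    (huP : u ∉ P) : ∃ ρ : G →+ ℝ, ρ u = 1 ∧ ∀ g : G, g ⊔ 0 ∉ P ↔ 0 < ρ g := by
  have harch : Archimedean (Quo P) := archimedean hP
  letI : One (Quo P) := ⟨mk P u⟩
  have h0 : (0 : Quo P) ≤ 1 := by
    change (0 : Quo P) ≤ mk P u
    rw [← map_zero (mk P)]
    exact mk_mono P hu
  have h1 : (1 : Quo P) ≠ 0 := by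
    intro h
    exact huP ((mk_eq_zero P u).1 h)
  letI : ZeroLEOneClass (Quo P) := ⟨h0⟩
  letI : NeZero (1 : Quo P) := ⟨h1⟩
  refine ⟨(Archimedean.embedReal (Quo P)).toAddMonoidHom.comp (mk P), ?_, fun g => ?_⟩
  · exact Archimedean.embedReal_one (M := Quo P)
  · have hs : StrictMono (Archimedean.embedReal (Quo P)) := Archimedean.embedRealFun_strictMono _
    have h2 : (0 : ℝ) < Archimedean.embedReal (Quo P) (mk P g) ↔ 0 < mk P g := by
      rw [← map_zero (Archimedean.embedReal (Quo P))]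
      exact hs.lt_iff_lt
    change _ ↔ (0 : ℝ) < Archimedean.embedReal (Quo P) (mk P g)
    rw [h2, ← not_le, ← map_zero (mk P), le_iff, sub_zero]

end General

end Pool.Agent.LRetract
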