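import Pool.Agent.LRetract.Retraction
import Pool.Agent.LRetract.RealVal
import Pool.Agent.LRetract.Comb
import Pool.Agent.LRetract.Curve

/-!
# The retract `Y` is not homeomorphic to the spectrum of an Abelian `ℓ`-group
-/

open Set Filter Topology

namespace Pool.Agent.LRetract

namespace NonRep

theorem one_notMem (P : SpecL H) : one ∉ P := by
  intro h
  obtain ⟨f, hf⟩ := P.ne_top'
  apply hf
  obtain ⟨K, hK⟩ := f.good.bdd
  obtain ⟨k, hk⟩ := exists_nat_ge K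
  refine P.solid (P.nsmul_mem h k) ?_
  intro ω
  change |f.1 ω| ≤ |(k • one).1 ω|
  rw [H.nsmul_apply, one_apply, mul_one, abs_of_nonneg (Nat.cast_nonneg (α := ℝ) k)]
  exact (hK ω).trans hk

theorem s_tendsto_T (p : Par) : Tendsto p.s atTop (𝓝 p.T1) :=
  tendsto_subtype_rng.2 p.s_tendsto

/-- Vanishing along the sequence and vanishing at the irrational limit. -/
theorem arc_zero_iff {φ : T → ℝ} (h : Arc φ) (p : Par) :
    (∀ᶠ n in atTop, φ (p.s n) = 0) ↔ φ p.T1 = 0 := by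
  constructor
  · intro h1
    have h2 : Tendsto (fun n => φ (p.s n)) atTop (𝓝 (φ p.T1)) :=
      (h.cont.tendsto _).comp (s_tendsto_T p)
    have h3 : Tendsto (fun n => φ (p.s n)) atTop (𝓝 0) := by
      refine Tendsto.congr' (f₁ := fun _ => (0 : ℝ)) ?_ tendsto_const_nhds
      filter_upwards [h1] with n hn
      exact hn.symm
    exact tendsto_nhds_unique h2 h3
  · intro h1
    obtain ⟨α, β, h2⟩ := h.germ p.T1 p.irr1
    have h3 : (α : ℝ) + β * p.t1 = 0 := by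
      rw [← h1]
      exact h2.self_of_nhds.symm
    have hβ : β = 0 := by
      by_contra hβ
      apply p.irr1
      refine ⟨-α / β, ?_⟩
      have hβ' : (β : ℝ) ≠ 0 := by exact_mod_cast hβ
      push_cast
      field_simp
      linarith
    subst hβ
    have hα : (α : ℝ) = 0 := by simpa using h3
    filter_upwards [(s_tendsto_T p).eventually h2] with n hn
    rw [hn, hα]
    simp

theorem eq_of_rays {x y : ℝ} (hx : 0 ≤ x) (hy : 0 ≤ y)
    (h : ∀ m n : ℕ, 0 < n * x - m ↔ 0 < n * y - m) : x = y := by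
  have key : ∀ {x y : ℝ}, 0 ≤ x → 0 ≤ y →
      (∀ m n : ℕ, 0 < n * x - m ↔ 0 < n * y - m) → ¬ x < y := by
    intro x y hx hy h hlt
    obtain ⟨q, hq1, hq2⟩ := exists_rat_btwn hlt
    have hq0 : 0 < q := by
      have : (0 : ℝ) < q := hx.trans_lt hq1
      exact_mod_cast this
    have hden : (0 : ℝ) < q.den := by exact_mod_cast q.den_pos
    have hnum : ((q.num.toNat : ℕ) : ℝ) = (q : ℝ) * q.den := by
      have h1 : ((q.num.toNat : ℕ) : ℤ) = q.num := Int.toNat_of_nonneg (Rat.num_pos.2 hq0).le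
      have h2 : (((q.num.toNat : ℕ) : ℤ) : ℝ) = ((q.num : ℤ) : ℝ) := by rw [h1]
      rw [Int.cast_natCast] at h2
      rw [h2]
      have h3 : (q.num : ℚ) = q * q.den := (Rat.mul_den_eq_num q).symm
      exact_mod_cast h3
    have h1 := (h q.num.toNat q.den).2 (by
      rw [hnum]
      have := mul_lt_mul_of_pos_right hq2 hden
      linarith)
    rw [hnum] at h1
    have := mul_lt_mul_of_pos_right hq1 hden
    linarith
  rcases lt_trichotomy x y with h1 | h1 | h1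
  · exact absurd h1 (key hx hy h)
  · exact h1
  · exact absurd h1 (key hy hx (fun m n => (h m n).symm))

theorem continuous_of_rays {φ : T → ℝ} (h0 : ∀ t, 0 ≤ φ t)
    (h1 : ∀ m n : ℕ, IsOpen {t | 0 < n * φ t - m}) (h2 : ∀ m n : ℕ, IsOpen {t | 0 < m - n * φ t}) :
    Continuous φ := by
  have hrat : ∀ q : ℚ, 0 < q → ∃ m n : ℕ, (0 : ℝ) < n ∧ (m : ℝ) = q * n := by
    intro q hq
    refine ⟨q.num.toNat, q.den, by exact_mod_cast q.den_pos, ?_⟩
    have h1 : ((q.num.toNat : ℕ) : ℤ) = q.num := Int.toNat_of_nonneg (Rat.num_pos.2 hq).le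
    have h2 : (((q.num.toNat : ℕ) : ℤ) : ℝ) = ((q.num : ℤ) : ℝ) := by rw [h1]
    rw [Int.cast_natCast] at h2
    rw [h2]
    have h3 : (q.num : ℚ) = q * q.den := (Rat.mul_den_eq_num q).symm
    exact_mod_cast h3
  rw [continuous_iff_continuousAt]
  intro t
  refine tendsto_order.2 ⟨fun c ht' => ?_, fun c ht' => ?_⟩
  · by_cases hc : c < 0
    · exact Eventually.of_forall fun s => hc.trans_le (h0 s)
    · obtain ⟨q, hq1, hq2⟩ := exists_rat_btwn ht'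
      have hq0 : 0 < q := by
        have : (0 : ℝ) < q := (not_lt.1 hc).trans_lt hq1
        exact_mod_cast this
      obtain ⟨m, n, hn, hm⟩ := hrat q hq0
      have ho := (h1 m n).mem_nhds (x := t) (by
        change 0 < n * φ t - m
        rw [hm]
        have := mul_lt_mul_of_pos_right hq2 hn
        linarith)
      filter_upwards [ho] with s hs
      have hs' : 0 < n * φ s - m := hs
      rw [hm] at hs'
      have h3 : q * (n : ℝ) < φ s * n := by linarith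
      exact hq1.trans (lt_of_mul_lt_mul_right h3 hn.le)
  · obtain ⟨q, hq1, hq2⟩ := exists_rat_btwn ht'
    have hq0 : 0 < q := by
      have : (0 : ℝ) < q := (h0 t).trans_lt hq1
      exact_mod_cast this
    obtain ⟨m, n, hn, hm⟩ := hrat q hq0
    have ho := (h2 m n).mem_nhds (x := t) (by
      change 0 < m - n * φ t
      rw [hm]
      have := mul_lt_mul_of_pos_right hq1 hn
      linarith)
    filter_upwards [ho] with s hs
    have hs' : 0 < m - n * φ s := hs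
    rw [hm] at hs'
    have h3 : φ s * n < q * (n : ℝ) := by linarith
    exact (lt_of_mul_lt_mul_right h3 hn.le).trans hq2

section

variable {G : Type*} [AddCommGroup G] [Lattice G] [IsOrderedAddMonoid G] (e : Y ≃ₜ SpecL G)

include e

theorem lemA (g : G) : ∃ h : H, ∀ y : Y, g ∉ e y ↔ h ∉ y.1 := by
  obtain ⟨h, -, hh⟩ := exists_O_of_compact (Subtype.val : Y → SpecL H) IsInducing.subtypeVal
    (C := e ⁻¹' (O g)) ((isOpen_O g).preimage e.continuous)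
    (e.isCompact_preimage.2 (isCompact_O g))
  refine ⟨h, fun y => ?_⟩
  have : y ∈ e ⁻¹' (O g) ↔ y ∈ Subtype.val ⁻¹' (O h) := by rw [hh]
  exact this

theorem lemB (h : H) : ∃ g : G, 0 ≤ g ∧ ∀ y : Y, g ∉ e y ↔ h ∉ y.1 := by
  obtain ⟨g, hg, hh⟩ := exists_O_of_compact e e.isInducing
    (C := (Subtype.val : Y → SpecL H) ⁻¹' (O h)) ((isOpen_O h).preimage continuous_subtype_val)
    (isSpectralMap_val.isCompact_preimage_of_isOpen (isOpen_O h) (isCompact_O h))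
  refine ⟨g, hg, fun y => ?_⟩
  have : y ∈ (Subtype.val : Y → SpecL H) ⁻¹' (O h) ↔ y ∈ e ⁻¹' (O g) := by rw [hh]
  exact this.symm

theorem closed_point {y : Y} (hy : ∀ z : Y, y.1 ≤ z.1 → z = y) (Q : SpecL G) (hQ : e y ≤ Q) :
    Q = e y := by
  have h1 : e y ⤳ Q := specializes_iff.2 hQ
  have h2 : e.symm (e y) ⤳ e.symm Q := h1.map e.symm.continuous
  rw [e.symm_apply_apply] at h2
  have h3 : y.1 ⤳ (e.symm Q).1 := h2.map continuous_subtype_val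
  have h4 := hy _ (specializes_iff.1 h3)
  rw [← h4, e.apply_symm_apply]

end

theorem mem_iff_posPart {G : Type*} [AddCommGroup G] [Lattice G] [IsOrderedAddMonoid G]
    (P : SpecL G) (g : G) : g ∈ P ↔ g ⊔ 0 ∈ P ∧ (-g) ⊔ 0 ∈ P := by
  constructor
  · intro h
    exact ⟨P.sup_mem h P.zero_mem, P.sup_mem (P.neg_mem h) P.zero_mem⟩
  · rintro ⟨h1, h2⟩
    refine P.convex (P.neg_mem h2) h1 ?_ le_sup_left
    rw [neg_le]
    exact le_sup_left

end NonRep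

open NonRep in
/-- **NR**: the subspace `Y` is not an `ℓ`-spectrum. -/
theorem not_lSpectrum {G : Type*} [AddCommGroup G] [Lattice G] [IsOrderedAddMonoid G] :
    IsEmpty (Y ≃ₜ SpecL G) := by
  refine ⟨fun e => ?_⟩
  -- the points
  let yp : Om → Y := fun ω => ⟨pt ω, pt_mem_Y ω⟩
  let yw : I → J → Y := fun ξ η => ⟨W ξ η, W_mem_Y ξ η⟩
  have hyp : ∀ ω, ∀ z : Y, (yp ω).1 ≤ z.1 → z = yp ω := fun ω z hz =>
    Subtype.ext (pt_max ω z.1 hz)
  have hyw : ∀ ξ η, ∀ z : Y, (yw ξ η).1 ≤ z.1 → z = yw ξ η := fun ξ η z hz =>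
    Subtype.ext (W_max ξ η z.2 hz)
  -- the unit
  obtain ⟨u, hu, hu'⟩ := lemB e one
  have huP : ∀ y : Y, u ∉ e y := fun y => (hu' y).2 (one_notMem y.1)
  -- the real valuations
  have hex : ∀ y : Y, ∃ ρ : G →+ ℝ, (∀ z : Y, y.1 ≤ z.1 → z = y) →
      (ρ u = 1 ∧ ∀ g : G, g ⊔ 0 ∉ e y ↔ 0 < ρ g) := by
    intro y
    by_cases hy : ∀ z : Y, y.1 ≤ z.1 → z = y
    · obtain ⟨ρ, hρ⟩ := exists_real (closed_point e hy) u hu (huP y)
      exact ⟨ρ, fun _ => hρ⟩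
    · exact ⟨0, fun h => absurd h hy⟩
  choose ρ hρ using hex
  have hρ1 : ∀ y : Y, (∀ z : Y, y.1 ≤ z.1 → z = y) → ρ y u = 1 := fun y hy => (hρ y hy).1
  have hρpos : ∀ y : Y, (∀ z : Y, y.1 ≤ z.1 → z = y) → ∀ g : G,
      (g ⊔ 0 ∉ e y ↔ 0 < ρ y g) := fun y hy => (hρ y hy).2
  have hρne : ∀ y : Y, (∀ z : Y, y.1 ≤ z.1 → z = y) → ∀ g : G, (g ∉ e y ↔ ρ y g ≠ 0) := by
    intro y hy g
    rw [mem_iff_posPart (e y) g, not_and_or, hρpos y hy g, hρpos y hy (-g), map_neg, neg_pos]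
    constructor
    · rintro (h | h)
      · exact h.ne'
      · exact h.ne
    · intro h
      exact h.lt_or_gt.symm
  have hρnn : ∀ y : Y, (∀ z : Y, y.1 ≤ z.1 → z = y) → ∀ g : G, 0 ≤ g → 0 ≤ ρ y g := by
    intro y hy g hg
    by_contra hlt
    have h1 : 0 < ρ y (-g) := by rw [map_neg]; linarith [not_le.1 hlt]
    apply (hρpos y hy (-g)).2 h1
    rw [sup_eq_right.2 (neg_nonpos.2 hg)]
    exact (e y).zero_mem
  have hray : ∀ y : Y, (∀ z : Y, y.1 ≤ z.1 → z = y) → ∀ (g : G) (m n : ℕ),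
      ((n • g - m • u) ⊔ 0 ∉ e y ↔ 0 < n * ρ y g - m) := by
    intro y hy g m n
    rw [hρpos y hy, map_sub, map_nsmul, map_nsmul, hρ1 y hy, nsmul_eq_mul, nsmul_eq_mul, mul_one]
  have hray' : ∀ y : Y, (∀ z : Y, y.1 ≤ z.1 → z = y) → ∀ (g : G) (m n : ℕ),
      ((m • u - n • g) ⊔ 0 ∉ e y ↔ 0 < m - n * ρ y g) := by
    intro y hy g m n
    rw [hρpos y hy, map_sub, map_nsmul, map_nsmul, hρ1 y hy, nsmul_eq_mul, nsmul_eq_mul, mul_one]
  -- the transfer of compact open sets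
  choose τ hτ using lemA e
  -- the elements attached to the arcs
  choose gA hgA0 hgA using fun ξ : I => lemB e (eA ξ)
  choose gB hgB0 hgB using fun η : J => lemB e (eB η)
  let φ : I → T → ℝ := fun ξ t => ρ (yp (.a ξ t)) (gA ξ)
  let ψ : J → T → ℝ := fun η t => ρ (yp (.b η t)) (gB η)
  have hφ0 : ∀ ξ t, 0 ≤ φ ξ t := fun ξ t => hρnn _ (hyp _) _ (hgA0 ξ)
  have hψ0 : ∀ η t, 0 ≤ ψ η t := fun η t => hρnn _ (hyp _) _ (hgB0 η)
  have hφz : ∀ ξ (t : T), φ ξ t = 0 ↔ (t : ℝ) = 0 := by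
    intro ξ t
    have h1 := hρne _ (hyp (.a ξ t)) (gA ξ)
    rw [hgA ξ (yp (.a ξ t))] at h1
    have h2 : eA ξ ∉ (yp (.a ξ t)).1 ↔ (t : ℝ) ≠ 0 := by
      change eA ξ ∉ pt (.a ξ t) ↔ _
      rw [mem_pt, eA_a, if_pos rfl]
    rw [h2] at h1
    exact (not_iff_not.1 h1).symm
  have hψz : ∀ η (t : T), ψ η t = 0 ↔ (t : ℝ) = 0 := by
    intro η t
    have h1 := hρne _ (hyp (.b η t)) (gB η)
    rw [hgB η (yp (.b η t))] at h1
    have h2 : eB η ∉ (yp (.b η t)).1 ↔ (t : ℝ) ≠ 0 := by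
      change eB η ∉ pt (.b η t) ↔ _
      rw [mem_pt, eB_b, if_pos rfl]
    rw [h2] at h1
    exact (not_iff_not.1 h1).symm
  have hopA : ∀ (ξ : I) (g : G), IsOpen {t : T | g ∉ e (yp (.a ξ t))} := by
    intro ξ g
    have h1 : {t : T | g ∉ e (yp (.a ξ t))} = {t : T | (τ g).1 (.a ξ t) ≠ 0} := by
      ext t
      exact hτ g (yp (.a ξ t))
    rw [h1]
    exact isOpen_ne_fun ((τ g).good.arcA ξ).cont continuous_const
  have hopB : ∀ (η : J) (g : G), IsOpen {t : T | g ∉ e (yp (.b η t))} := by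
    intro η g
    have h1 : {t : T | g ∉ e (yp (.b η t))} = {t : T | (τ g).1 (.b η t) ≠ 0} := by
      ext t
      exact hτ g (yp (.b η t))
    rw [h1]
    exact isOpen_ne_fun ((τ g).good.arcB η).cont continuous_const
  have hφc : ∀ ξ, Continuous (φ ξ) := by
    intro ξ
    refine continuous_of_rays (hφ0 ξ) (fun m n => ?_) (fun m n => ?_)
    · convert hopA ξ ((n • gA ξ - m • u) ⊔ 0) using 1
      ext t
      exact (hray _ (hyp (.a ξ t)) (gA ξ) m n).symm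
    · convert hopA ξ ((m • u - n • gA ξ) ⊔ 0) using 1
      ext t
      exact (hray' _ (hyp (.a ξ t)) (gA ξ) m n).symm
  have hψc : ∀ η, Continuous (ψ η) := by
    intro η
    refine continuous_of_rays (hψ0 η) (fun m n => ?_) (fun m n => ?_)
    · convert hopB η ((n • gB η - m • u) ⊔ 0) using 1
      ext t
      exact (hray _ (hyp (.b η t)) (gB η) m n).symm
    · convert hopB η ((m • u - n • gB η) ⊔ 0) using 1
      ext t
      exact (hray' _ (hyp (.b η t)) (gB η) m n).symm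
  -- the exceptional sets
  choose fA hfA using fun f : H => f.good.finA
  choose fB hfB using fun f : H => f.good.finB
  let f1 : I → Set J := fun ξ => ⋃ m : ℕ, ⋃ n : ℕ, ((fB (τ ((n • gA ξ - m • u) ⊔ 0)) : Finset J) : Set J)
  let f2 : J → Set I := fun η => ⋃ m : ℕ, ⋃ n : ℕ, ((fA (τ ((n • gB η - m • u) ⊔ 0)) : Finset I) : Set I)
  have hf1 : ∀ ξ, (f1 ξ).Countable := fun ξ =>
    Set.countable_iUnion fun m => Set.countable_iUnion fun n => Finset.countable_toSet _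
  have hf2 : ∀ η, (f2 η).Countable := fun η =>
    Set.countable_iUnion fun m => Set.countable_iUnion fun n => Finset.countable_toSet _
  -- the values on the sequences
  have hA1 : ∀ ξ η, η ∉ f1 ξ → ∀ k, ρ (yp (.c ξ η k)) (gA ξ) = φ ξ ((ξ η).s k) := by
    intro ξ η hη k
    refine eq_of_rays (hρnn _ (hyp _) _ (hgA0 ξ)) (hφ0 ξ _) (fun m n => ?_)
    rw [← hray _ (hyp (.c ξ η k)) (gA ξ) m n]
    change _ ↔ 0 < n * ρ (yp (.a ξ ((ξ η).s k))) (gA ξ) - m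
    rw [← hray _ (hyp (.a ξ ((ξ η).s k))) (gA ξ) m n, hτ, hτ]
    change _ ∉ pt _ ↔ _ ∉ pt _
    rw [mem_pt, mem_pt]
    have h1 : η ∉ fB (τ ((n • gA ξ - m • u) ⊔ 0)) := by
      intro h
      exact hη (Set.mem_iUnion.2 ⟨m, Set.mem_iUnion.2 ⟨n, h⟩⟩)
    rw [hfB _ ξ η h1 k]
  have hA2 : ∀ ξ η, η ∉ f1 ξ → ρ (yw ξ η) (gA ξ) = φ ξ (ξ η).T1 := by
    intro ξ η hη
    refine eq_of_rays (hρnn _ (hyw ξ η) _ (hgA0 ξ)) (hφ0 ξ _) (fun m n => ?_)
    rw [← hray _ (hyw ξ η) (gA ξ) m n]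
    change _ ↔ 0 < n * ρ (yp (.a ξ (ξ η).T1)) (gA ξ) - m
    rw [← hray _ (hyp (.a ξ (ξ η).T1)) (gA ξ) m n, hτ, hτ]
    change _ ∉ W ξ η ↔ _ ∉ pt _
    rw [mem_pt, mem_W]
    have h1 : η ∉ fB (τ ((n • gA ξ - m • u) ⊔ 0)) := by
      intro h
      exact hη (Set.mem_iUnion.2 ⟨m, Set.mem_iUnion.2 ⟨n, h⟩⟩)
    rw [not_iff_not, ← arc_zero_iff ((τ ((n • gA ξ - m • u) ⊔ 0)).good.arcA ξ) (ξ η)]
    have h2 : ∀ k, (τ ((n • gA ξ - m • u) ⊔ 0)).1 (.c ξ η k)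
        = (τ ((n • gA ξ - m • u) ⊔ 0)).1 (.a ξ ((ξ η).s k)) := fun k => hfB _ ξ η h1 k
    simp only [h2]
  have hB1 : ∀ ξ η, ξ ∉ f2 η → ∀ k, ρ (yp (.c ξ η k)) (gB η) = ψ η (ξ η).T2 := by
    intro ξ η hξ k
    refine eq_of_rays (hρnn _ (hyp _) _ (hgB0 η)) (hψ0 η _) (fun m n => ?_)
    rw [← hray _ (hyp (.c ξ η k)) (gB η) m n]
    change _ ↔ 0 < n * ρ (yp (.b η (ξ η).T2)) (gB η) - m
    rw [← hray _ (hyp (.b η (ξ η).T2)) (gB η) m n, hτ, hτ]
    change _ ∉ pt _ ↔ _ ∉ pt _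
    rw [mem_pt, mem_pt]
    have h1 : ξ ∉ fA (τ ((n • gB η - m • u) ⊔ 0)) := by
      intro h
      exact hξ (Set.mem_iUnion.2 ⟨m, Set.mem_iUnion.2 ⟨n, h⟩⟩)
    rw [hfA _ ξ h1 η k]
  have hB2 : ∀ ξ η, ξ ∉ f2 η → ρ (yw ξ η) (gB η) = ψ η (ξ η).T2 := by
    intro ξ η hξ
    refine eq_of_rays (hρnn _ (hyw ξ η) _ (hgB0 η)) (hψ0 η _) (fun m n => ?_)
    rw [← hray _ (hyw ξ η) (gB η) m n]
    change _ ↔ 0 < n * ρ (yp (.b η (ξ η).T2)) (gB η) - m
    rw [← hray _ (hyp (.b η (ξ η).T2)) (gB η) m n, hτ, hτ]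
    change _ ∉ W ξ η ↔ _ ∉ pt _
    rw [mem_pt, mem_W]
    have h1 : ξ ∉ fA (τ ((n • gB η - m • u) ⊔ 0)) := by
      intro h
      exact hξ (Set.mem_iUnion.2 ⟨m, Set.mem_iUnion.2 ⟨n, h⟩⟩)
    have h2 : ∀ k, (τ ((n • gB η - m • u) ⊔ 0)).1 (.c ξ η k)
        = (τ ((n • gB η - m • u) ⊔ 0)).1 (.b η (ξ η).T2) := fun k => hfA _ ξ h1 η k
    simp only [h2, eventually_const]
  -- the choice of the parameters
  have hpar : ∀ (ξ : I) (χ : T → ℝ), ∃ p : Par,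
      (Continuous χ → (∀ t : T, χ t = 0 ↔ (t : ℝ) = 0) → (∀ t, 0 ≤ χ t) →
        φ ξ p.T1 = χ p.T2 ∧ ∀ t : T, (t : ℝ) < p.t1 → φ ξ t < φ ξ p.T1) := by
    intro ξ χ
    by_cases h : Continuous χ ∧ (∀ t : T, χ t = 0 ↔ (t : ℝ) = 0) ∧ (∀ t, 0 ≤ χ t)
    · obtain ⟨p, hp⟩ := exists_par (φ ξ) χ (hφc ξ) h.1 (hφz ξ) (hφ0 ξ) h.2.1 h.2.2
      exact ⟨p, fun _ _ _ => hp⟩
    · obtain ⟨p, -⟩ := exists_par (φ ξ) (φ ξ) (hφc ξ) (hφc ξ) (hφz ξ) (hφ0 ξ) (hφz ξ) (hφ0 ξ)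
      exact ⟨p, fun h1 h2 h3 => absurd ⟨h1, h2, h3⟩ h⟩
  choose p hp using hpar
  obtain ⟨ξ, η, h1, h2, h3⟩ := exists_indices ψ f1 hf1 f2 hf2 p
  obtain ⟨h4, h5⟩ := hp ξ (ψ η) (hψc η) (hψz η) (hψ0 η)
  rw [← h3] at h4 h5
  -- the difference
  obtain ⟨h, hh⟩ := lemA e (gB η - gA ξ)
  have hW : h ∈ W ξ η := by
    by_contra hcon
    have h6 : (gB η - gA ξ) ∉ e (yw ξ η) := (hh (yw ξ η)).2 hcon
    rw [hρne _ (hyw ξ η), map_sub, hB2 ξ η h2, hA2 ξ η h1, h4, sub_self] at h6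
    exact h6 rfl
  obtain ⟨k, hk⟩ := (mem_W.1 hW).exists
  have h6 : (gB η - gA ξ) ∉ e (yp (.c ξ η k)) := by
    rw [hρne _ (hyp (.c ξ η k)), map_sub, hB1 ξ η h2 k, hA1 ξ η h1 k, ← h4]
    exact (sub_pos.2 (h5 _ ((ξ η).s_lt k))).ne'
  exact (hh (yp (.c ξ η k))).1 h6 hk

end Pool.Agent.LRetract
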