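import Pool.Agent.LRetract.Defs2

/-!
# MP_f0bf0c_al : the points of the spectrum near the sequences
-/

open Set Filter Topology

namespace Pool.Agent.LRetract

namespace PTAux

theorem one_notMem (Q : SpecL H) : one ∉ Q := by
  intro h
  obtain ⟨x, hx⟩ := Q.ne_top'
  apply hx
  obtain ⟨K, hK⟩ := x.good.bdd
  obtain ⟨k, hk⟩ := exists_nat_ge K
  have h1 : |x| ≤ k • one := by
    rw [H.le_iff]
    intro ω
    rw [H.abs_apply, H.nsmul_apply, one_apply, mul_one]
    exact (hK ω).trans hk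
  exact Q.abs_mem_iff.1 (Q.convex Q.zero_mem (Q.nsmul_mem h k) (abs_nonneg x) h1)

open Classical in
theorem tail_c (ξ : I) (η : J) (N : ℕ) (ξ' : I) (η' : J) (n : ℕ) :
    (tail ξ η N).1 (.c ξ' η' n) = if ξ' = ξ ∧ η' = η ∧ N ≤ n then 1 else 0 := by
  by_cases h : ξ' = ξ ∧ η' = η ∧ N ≤ n
  · rw [if_pos h]
    exact if_pos h
  · rw [if_neg h]
    exact if_neg h

theorem tail_a (ξ : I) (η : J) (N : ℕ) (ξ' : I) (t : T) : (tail ξ η N).1 (.a ξ' t) = 0 := rfl

theorem tail_b (ξ : I) (η : J) (N : ℕ) (η' : J) (t : T) : (tail ξ η N).1 (.b η' t) = 0 := rfl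

open Classical in
theorem delta_c (ξ : I) (η : J) (k : ℕ) (ξ' : I) (η' : J) (n : ℕ) :
    (delta ξ η k).1 (.c ξ' η' n) = if ξ' = ξ ∧ η' = η ∧ n = k then 1 else 0 := by
  unfold delta
  rw [chi_c]
  simp only [mem_singleton_iff]

theorem delta_a (ξ : I) (η : J) (N : ℕ) (ξ' : I) (t : T) : (delta ξ η N).1 (.a ξ' t) = 0 := rfl

theorem delta_b (ξ : I) (η : J) (N : ℕ) (η' : J) (t : T) : (delta ξ η N).1 (.b η' t) = 0 := rfl

theorem delta_nonneg (ξ : I) (η : J) (k : ℕ) : 0 ≤ delta ξ η k := by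
  classical
  rw [H.le_iff]
  rintro (⟨ξ', t⟩ | ⟨η', t⟩ | ⟨ξ', η', n⟩)
  · rw [delta_a]; rfl
  · rw [delta_b]; rfl
  · rw [delta_c]
    split_ifs
    · exact zero_le_one
    · exact le_rfl

theorem tail_nonneg (ξ : I) (η : J) (k : ℕ) : 0 ≤ tail ξ η k := by
  classical
  rw [H.le_iff]
  rintro (⟨ξ', t⟩ | ⟨η', t⟩ | ⟨ξ', η', n⟩)
  · rw [tail_a]; rfl
  · rw [tail_b]; rfl
  · rw [tail_c]
    split_ifs
    · exact zero_le_one
    · exact le_rfl

theorem le_mem {P Q : SpecL H} (h : P ≤ Q) {x : H} (hx : x ∈ P) : x ∈ Q :=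
  SpecL.le_def.1 h x hx

/-- the sum of the first characteristic functions -/
noncomputable def dsum (ξ : I) (η : J) (N : ℕ) : H := ∑ k ∈ Finset.range N, delta ξ η k

theorem sum_apply {ι : Type*} (s : Finset ι) (f : ι → H) (ω : Om) :
    (∑ i ∈ s, f i).1 ω = ∑ i ∈ s, (f i).1 ω := by
  classical
  induction s using Finset.induction_on with
  | empty => simp
  | insert a s ha ih => rw [Finset.sum_insert ha, Finset.sum_insert ha, H.add_apply, ih]

open Classical in
theorem dsum_c (ξ : I) (η : J) (N : ℕ) (ξ' : I) (η' : J) (n : ℕ) :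
    (dsum ξ η N).1 (.c ξ' η' n) = if ξ' = ξ ∧ η' = η ∧ n < N then 1 else 0 := by
  unfold dsum
  rw [sum_apply]
  simp only [delta_c]
  by_cases h : ξ' = ξ ∧ η' = η
  · obtain ⟨h1, h2⟩ := h
    simp [h1, h2]
  · have h1 : ∀ k, ¬ (ξ' = ξ ∧ η' = η ∧ n = k) := fun k hk => h ⟨hk.1, hk.2.1⟩
    have h2 : ¬ (ξ' = ξ ∧ η' = η ∧ n < N) := fun hk => h ⟨hk.1, hk.2.1⟩
    simp [h1, h2]

theorem dsum_a (ξ : I) (η : J) (N : ℕ) (ξ' : I) (t : T) : (dsum ξ η N).1 (.a ξ' t) = 0 := by
  unfold dsum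
  rw [sum_apply]
  simp [delta_a]

theorem dsum_b (ξ : I) (η : J) (N : ℕ) (η' : J) (t : T) : (dsum ξ η N).1 (.b η' t) = 0 := by
  unfold dsum
  rw [sum_apply]
  simp [delta_b]

theorem sum_mem (P : SpecL H) {ι : Type*} (s : Finset ι) (f : ι → H) (h : ∀ i ∈ s, f i ∈ P) :
    ∑ i ∈ s, f i ∈ P := by
  classical
  induction s using Finset.induction_on with
  | empty => simpa using P.zero_mem
  | insert a s ha ih =>
    rw [Finset.sum_insert ha]
    exact P.add_mem (h a (Finset.mem_insert_self a s))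
      (ih fun i hi => h i (Finset.mem_insert_of_mem hi))

/-- the germ of an element along a sequence -/
theorem exists_germ (f : H) (ξ : I) (η : J) : ∃ L β : ℝ,
    (∀ᶠ n in atTop, f.1 (.c ξ η n) = L + β * ((((ξ η).s n : T) : ℝ) - (ξ η).t1)) ∧
    Tendsto (fun n => f.1 (.c ξ η n)) atTop (𝓝 L) := by
  obtain ⟨α, β, γ, h⟩ := f.good.germ ξ η
  have h1 : ∀ᶠ n in atTop, f.1 (.c ξ η n) = ((α : ℝ) + β * (ξ η).t1 + γ * (ξ η).t2)
      + (β : ℝ) * ((((ξ η).s n : T) : ℝ) - (ξ η).t1) := by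
    filter_upwards [h] with n hn
    rw [hn]; ring
  refine ⟨(α : ℝ) + β * (ξ η).t1 + γ * (ξ η).t2, β, h1, ?_⟩
  have h2 : Tendsto (fun n => ((α : ℝ) + β * (ξ η).t1 + γ * (ξ η).t2)
      + (β : ℝ) * ((((ξ η).s n : T) : ℝ) - (ξ η).t1)) atTop
      (𝓝 (((α : ℝ) + β * (ξ η).t1 + γ * (ξ η).t2) + (β : ℝ) * ((ξ η).t1 - (ξ η).t1))) :=
    tendsto_const_nhds.add (tendsto_const_nhds.mul (((ξ η).s_tendsto).sub tendsto_const_nhds))
  rw [sub_self, mul_zero, add_zero] at h2
  exact h2.congr' (h1.mono fun n hn => hn.symm)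

end PTAux

open PTAux

theorem pt_max (ω : Om) (Q : SpecL H) (h : pt ω ≤ Q) : Q = pt ω := by
  refine le_antisymm (SpecL.le_def.2 ?_) h
  intro f hf
  rw [mem_pt]
  by_contra hne
  have hpos : 0 < |f.1 ω| := abs_pos.2 hne
  obtain ⟨k, hk⟩ := exists_nat_ge (1 / |f.1 ω|)
  have hk' : 1 ≤ (k : ℝ) * |f.1 ω| := by
    rw [div_le_iff₀ hpos] at hk; exact hk
  have h1 : (one - k • |f|) ⊔ 0 ∈ Q := by
    refine le_mem h ?_
    rw [mem_pt, H.sup_apply, H.sub_apply, one_apply, H.nsmul_apply, H.abs_apply, H.zero_apply]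
    exact sup_eq_right.2 (by linarith)
  have h2 : one ≤ k • |f| + ((one - k • |f|) ⊔ 0) := by
    calc one = k • |f| + (one - k • |f|) := by abel
      _ ≤ _ := by gcongr; exact le_sup_left
  have h0 : (0 : H) ≤ one := by
    rw [H.le_iff]; intro ω; rw [one_apply]; exact zero_le_one
  exact one_notMem Q (Q.convex Q.zero_mem
    (Q.add_mem (Q.nsmul_mem (Q.abs_mem_iff.2 hf) k) h1) h0 h2)

/-- The primes which do not contain the characteristic function of a tail of a sequence. -/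
theorem classify (ξ : I) (η : J) (N : ℕ) (P : SpecL H) (h : tail ξ η N ∉ P) :
    (∃ n, N ≤ n ∧ P = pt (.c ξ η n)) ∨ P = W ξ η ∨ P = M ξ η := by
  classical
  by_cases hd : ∃ n, delta ξ η n ∉ P
  · obtain ⟨n, hn⟩ := hd
    left
    have h1 : pt (.c ξ η n) ≤ P := by
      refine SpecL.le_def.2 ?_
      intro f hf
      rw [mem_pt] at hf
      have h2 : |f| ⊓ |delta ξ η n| ∈ P := by
        have h3 : |f| ⊓ |delta ξ η n| = 0 := by
          apply Subtype.ext
          funext ω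
          change (|f| ⊓ |delta ξ η n|).1 ω = 0
          rw [H.inf_apply, H.abs_apply, H.abs_apply]
          rcases ω with ⟨ξ', t⟩ | ⟨η', t⟩ | ⟨ξ', η', m⟩
          · rw [delta_a, abs_zero]; exact inf_eq_right.2 (abs_nonneg _)
          · rw [delta_b, abs_zero]; exact inf_eq_right.2 (abs_nonneg _)
          · rw [delta_c]
            by_cases hc : ξ' = ξ ∧ η' = η ∧ m = n
            · obtain ⟨rfl, rfl, rfl⟩ := hc
              rw [hf, abs_zero]
              exact inf_eq_left.2 (abs_nonneg _)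
            · rw [if_neg hc, abs_zero]; exact inf_eq_right.2 (abs_nonneg _)
        rw [h3]; exact P.zero_mem
      exact (P.inf_abs_mem_iff.1 h2).resolve_right hn
    have h2 := pt_max _ P h1
    refine ⟨n, ?_, h2⟩
    rw [h2, mem_pt, tail_c] at h
    by_contra hN
    exact h (if_neg fun hh => hN hh.2.2)
  · push Not at hd
    right
    have hds : ∀ N', dsum ξ η N' ∈ P := fun N' => sum_mem P _ _ fun i _ => hd i
    have hWP : W ξ η ≤ P := by
      refine SpecL.le_def.2 ?_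
      intro f hf
      rw [mem_W, eventually_atTop] at hf
      obtain ⟨N', hN'⟩ := hf
      have h1 : |f| ⊓ |tail ξ η N| ≤ dsum ξ η N' := by
        rw [H.le_iff]
        intro ω
        rw [H.inf_apply, H.abs_apply, H.abs_apply]
        rcases ω with ⟨ξ', t⟩ | ⟨η', t⟩ | ⟨ξ', η', m⟩
        · rw [tail_a, dsum_a, abs_zero]; exact inf_le_right
        · rw [tail_b, dsum_b, abs_zero]; exact inf_le_right
        · rw [tail_c, dsum_c]
          by_cases hc : ξ' = ξ ∧ η' = η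
          · obtain ⟨rfl, rfl⟩ := hc
            by_cases hm : m < N'
            · rw [if_pos (⟨rfl, rfl, hm⟩ : ξ' = ξ' ∧ η' = η' ∧ m < N')]
              refine inf_le_right.trans ?_
              split_ifs <;> simp
            · rw [hN' m (not_lt.1 hm), abs_zero]
              refine inf_le_left.trans ?_
              split_ifs <;> simp
          · rw [if_neg fun hh => hc ⟨hh.1, hh.2.1⟩, if_neg fun hh => hc ⟨hh.1, hh.2.1⟩, abs_zero]
            exact inf_le_right
      have h2 : |f| ⊓ |tail ξ η N| ∈ P :=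
        P.convex P.zero_mem (hds N') (le_inf (abs_nonneg _) (abs_nonneg _)) h1
      exact (P.inf_abs_mem_iff.1 h2).resolve_right h
    have hlim : ∀ f ∈ P, Tendsto (fun n => f.1 (.c ξ η n)) atTop (𝓝 0) := by
      intro f hf
      obtain ⟨L, β, _, hL⟩ := exists_germ f ξ η
      have hL0 : L = 0 := by
        by_contra hL0
        apply h
        have hpos : 0 < |L| := abs_pos.2 hL0
        have h1 : ∀ᶠ n in atTop, |L| / 2 < |f.1 (.c ξ η n)| :=
          hL.abs.eventually (lt_mem_nhds (by linarith))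
        obtain ⟨N', hN'⟩ := eventually_atTop.1 h1
        obtain ⟨k, hk⟩ := exists_nat_ge (1 / (|L| / 2))
        have hk' : 1 ≤ (k : ℝ) * (|L| / 2) := by
          rw [div_le_iff₀ (by linarith)] at hk; exact hk
        have h2 : tail ξ η N ≤ k • |f| + dsum ξ η N' := by
          rw [H.le_iff]
          intro ω
          rw [H.add_apply, H.nsmul_apply, H.abs_apply]
          have hk0 : (0 : ℝ) ≤ k * |f.1 ω| := by positivity
          rcases ω with ⟨ξ', t⟩ | ⟨η', t⟩ | ⟨ξ', η', m⟩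
          · rw [tail_a, dsum_a, add_zero]; exact hk0
          · rw [tail_b, dsum_b, add_zero]; exact hk0
          · rw [tail_c, dsum_c]
            by_cases hc : ξ' = ξ ∧ η' = η
            · obtain ⟨rfl, rfl⟩ := hc
              by_cases hm : m < N'
              · rw [if_pos (⟨rfl, rfl, hm⟩ : ξ' = ξ' ∧ η' = η' ∧ m < N')]
                split_ifs <;> linarith
              · have h3 := hN' m (not_lt.1 hm)
                have h4 : (k : ℝ) * (|L| / 2) ≤ k * |f.1 (.c ξ' η' m)| := by gcongr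
                split_ifs <;> linarith
            · rw [if_neg fun hh => hc ⟨hh.1, hh.2.1⟩, if_neg fun hh => hc ⟨hh.1, hh.2.1⟩,
                add_zero]
              exact hk0
        exact P.convex P.zero_mem (P.add_mem (P.nsmul_mem (P.abs_mem_iff.2 hf) k) (hds N'))
          (tail_nonneg ξ η N) h2
      rw [hL0] at hL
      exact hL
    have hPM : P ≤ M ξ η := SpecL.le_def.2 fun f hf => hlim f hf
    by_cases hPW : P ≤ W ξ η
    · exact Or.inl (le_antisymm hPW hWP)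
    · right
      refine le_antisymm hPM ?_
      rw [SpecL.le_def] at hPW
      push Not at hPW
      obtain ⟨f, hf, hfW⟩ := hPW
      obtain ⟨L, β, h1, hL⟩ := exists_germ f ξ η
      have hL0 : L = 0 := tendsto_nhds_unique hL (hlim f hf)
      have hβ : β ≠ 0 := by
        rintro rfl
        apply hfW
        rw [mem_W]
        filter_upwards [h1] with n hn
        rw [hn, hL0]; ring
      refine SpecL.le_def.2 ?_
      intro g hg
      obtain ⟨L', β', h1', hL'⟩ := exists_germ g ξ η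
      have hL0' : L' = 0 := tendsto_nhds_unique hL' hg
      obtain ⟨k, hk⟩ := exists_nat_ge (|β'| / |β|)
      have hk' : |β'| ≤ k * |β| := by
        rw [div_le_iff₀ (abs_pos.2 hβ)] at hk; exact hk
      have h2 : (|g| - k • |f|) ⊔ 0 ∈ W ξ η := by
        rw [mem_W]
        filter_upwards [h1, h1'] with n e1 e2
        rw [H.sup_apply, H.sub_apply, H.nsmul_apply, H.abs_apply, H.abs_apply, H.zero_apply, e1,
          e2, hL0, hL0', zero_add, zero_add, abs_mul, abs_mul]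
        apply sup_eq_right.2
        have := mul_le_mul_of_nonneg_right hk'
          (abs_nonneg ((((ξ η).s n : T) : ℝ) - (ξ η).t1))
        linarith
      have h3 : |g| ≤ k • |f| + ((|g| - k • |f|) ⊔ 0) := by
        calc |g| = k • |f| + (|g| - k • |f|) := by abel
          _ ≤ _ := by gcongr; exact le_sup_left
      exact P.abs_mem_iff.1 (P.convex P.zero_mem
        (P.add_mem (P.nsmul_mem (P.abs_mem_iff.2 hf) k) (le_mem hWP h2)) (abs_nonneg g) h3)

theorem tail_notMem_of_W_le (ξ : I) (η : J) (N : ℕ) (P : SpecL H) (h : W ξ η ≤ P) :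
    tail ξ η N ∉ P := by
  classical
  intro ht
  have h1 : one - tail ξ η N ∈ W ξ η := by
    rw [mem_W]
    filter_upwards [eventually_ge_atTop N] with n hn
    rw [H.sub_apply, one_apply, tail_c, if_pos ⟨rfl, rfl, hn⟩, sub_self]
  have h2 := P.add_mem (le_mem h h1) ht
  rw [sub_add_cancel] at h2
  exact one_notMem P h2

namespace PTAux

theorem tail_mem_M_of_ne {ξ ξ' : I} {η η' : J} (h : ¬ (ξ' = ξ ∧ η' = η)) (N : ℕ) :
    tail ξ η N ∈ M ξ' η' := by
  classical
  rw [mem_M]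
  have h1 : (fun n => (tail ξ η N).1 (.c ξ' η' n)) = fun _ => (0 : ℝ) := by
    funext n
    rw [tail_c, if_neg fun hh => h ⟨hh.1, hh.2.1⟩]
  rw [h1]
  exact tendsto_const_nhds

theorem delta_mem_W (ξ : I) (η : J) (k : ℕ) : delta ξ η k ∈ W ξ η := by
  classical
  rw [mem_W]
  filter_upwards [eventually_gt_atTop k] with n hn
  rw [delta_c, if_neg]
  rintro ⟨_, _, h⟩
  omega

theorem delta_notMem_pt (ξ : I) (η : J) (k : ℕ) : delta ξ η k ∉ pt (.c ξ η k) := by
  classical
  rw [mem_pt, delta_c, if_pos ⟨rfl, rfl, rfl⟩]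
  exact one_ne_zero

end PTAux

theorem M_injective {ξ ξ' : I} {η η' : J} (h : M ξ η = M ξ' η') : ξ = ξ' ∧ η = η' := by
  by_contra hcon
  have h1 : tail ξ η 0 ∉ M ξ η := tail_notMem_of_W_le ξ η 0 _ (W_le_M ξ η)
  apply h1
  rw [h]
  exact tail_mem_M_of_ne (fun hh => hcon ⟨hh.1.symm, hh.2.symm⟩) 0

theorem W_max (ξ : I) (η : J) {Q : SpecL H} (hQ : Q ∈ Y) (h : W ξ η ≤ Q) : Q = W ξ η := by
  rcases classify ξ η 0 Q (tail_notMem_of_W_le ξ η 0 Q h) with ⟨n, _, h1⟩ | h1 | h1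
  · exfalso
    apply delta_notMem_pt ξ η n
    rw [← h1]
    exact le_mem h (delta_mem_W ξ η n)
  · exact h1
  · exact (hQ ξ η h1).symm

theorem pt_mem_Y (ω : Om) : pt ω ∈ Y := by
  classical
  intro ξ η h
  exfalso
  have h1 : W ξ η ≤ pt ω := by
    rw [h]; exact W_le_M ξ η
  have h2 := tail_notMem_of_W_le ξ η 0 _ h1
  rw [mem_pt] at h2
  rcases ω with ⟨ξ', t⟩ | ⟨η', t⟩ | ⟨ξ', η', n⟩
  · exact h2 (tail_a _ _ _ _ _)
  · exact h2 (tail_b _ _ _ _ _)
  · rw [tail_c] at h2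
    by_cases hc : ξ' = ξ ∧ η' = η
    · obtain ⟨rfl, rfl⟩ := hc
      exact delta_notMem_pt ξ' η' n (le_mem h1 (delta_mem_W ξ' η' n))
    · exact h2 (if_neg fun hh => hc ⟨hh.1, hh.2.1⟩)

theorem W_mem_Y (ξ : I) (η : J) : W ξ η ∈ Y := by
  intro ξ' η' h
  have h1 : tail ξ η 0 ∉ W ξ η := tail_notMem_of_W_le ξ η 0 _ le_rfl
  by_cases hc : ξ' = ξ ∧ η' = η
  · obtain ⟨rfl, rfl⟩ := hc
    rfl
  · exfalso
    apply h1
    rw [h]
    exact tail_mem_M_of_ne hc 0

end Pool.Agent.LRetract
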