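import Pool.Agent.LRetract.SpecBasic

/-!
# MP_f0bf0c_al : compactness of the basic open sets
-/

open Set Filter Topology

namespace Pool.Agent.LRetract

section General

variable {G : Type*} [AddCommGroup G] [Lattice G] [IsOrderedAddMonoid G]

namespace SCAux

/-- The limit of an ultrafilter on the spectrum. -/
def lim (F : Ultrafilter (SpecL G)) (g : G) (hg : O g ∈ F) : SpecL G where
  carrier := {x | {Q : SpecL G | x ∈ Q} ∈ F}
  add_mem' := by
    intro x y hx hy
    filter_upwards [hx, hy] with Q a b using Q.add_mem a b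
  zero_mem' := by
    filter_upwards with Q using Q.zero_mem
  neg_mem' := by
    intro x hx
    filter_upwards [hx] with Q a using Q.neg_mem a
  inf_mem' := by
    intro x y hx hy
    filter_upwards [hx, hy] with Q a b using Q.inf_mem a b
  sup_mem' := by
    intro x y hx hy
    filter_upwards [hx, hy] with Q a b using Q.sup_mem a b
  convex' := by
    intro a b x ha hb h1 h2
    filter_upwards [ha, hb] with Q c d using Q.convex c d h1 h2
  ne_top' := by
    refine ⟨g, fun h => ?_⟩
    have h1 : {Q : SpecL G | g ∈ Q} ∩ O g ∈ F := inter_mem h hg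
    have h2 : {Q : SpecL G | g ∈ Q} ∩ O g = ∅ := by
      ext Q
      simp only [mem_inter_iff, mem_empty_iff_false, iff_false, not_and]
      exact fun h1 h2 => h2 h1
    rw [h2] at h1
    exact F.empty_notMem h1
  prime' := by
    intro x y h
    have h1 : {Q : SpecL G | x ∈ Q} ∪ {Q : SpecL G | y ∈ Q} ∈ F := by
      filter_upwards [h] with Q a using Q.prime a
    exact Ultrafilter.union_mem_iff.1 h1

theorem mem_lim {F : Ultrafilter (SpecL G)} {g : G} {hg : O g ∈ F} {x : G} :
    x ∈ lim F g hg ↔ {Q : SpecL G | x ∈ Q} ∈ F := Iff.rfl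

theorem exists_union (t : Finset G) : ∃ g : G, 0 ≤ g ∧ O g = ⋃ i ∈ t, O i := by
  classical
  induction t using Finset.induction_on with
  | empty =>
    refine ⟨0, le_rfl, ?_⟩
    ext P
    simp only [Finset.notMem_empty, iUnion_of_empty, iUnion_empty, mem_empty_iff_false, iff_false,
      mem_O, not_not]
    exact P.zero_mem
  | insert a s _ ih =>
    obtain ⟨g, _, hg⟩ := ih
    refine ⟨|a| ⊔ |g|, le_sup_of_le_left (abs_nonneg a), ?_⟩
    rw [O_sup, hg, Finset.set_biUnion_insert]

end SCAux

open SCAux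

/-- The basic open sets are compact. -/
theorem isCompact_O (g : G) : IsCompact (O g) := by
  rw [isCompact_iff_ultrafilter_le_nhds]
  intro F hF
  have hg : O g ∈ F := hF (mem_principal_self _)
  refine ⟨lim F g hg, ?_, ?_⟩
  · intro h
    rw [mem_lim] at h
    have h1 : {Q : SpecL G | g ∈ Q} ∩ O g ∈ F := inter_mem h hg
    have h2 : {Q : SpecL G | g ∈ Q} ∩ O g = ∅ := by
      ext Q
      simp only [mem_inter_iff, mem_empty_iff_false, iff_false, not_and]
      exact fun h1 h2 => h2 h1
    rw [h2] at h1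
    exact F.empty_notMem h1
  · intro U hU
    obtain ⟨V, hVU, hV, hP⟩ := mem_nhds_iff.1 hU
    obtain ⟨h, h1, h2⟩ := isOpen_iff_O.1 hV _ hP
    have h3 : {Q : SpecL G | h ∈ Q} ∉ F := h1
    have h4 : {Q : SpecL G | h ∈ Q}ᶜ ∈ F := Ultrafilter.compl_mem_iff_notMem.2 h3
    exact mem_of_superset h4 (fun Q hQ => hVU (h2 hQ))

/-- A compact open subset of a space with an inducing map to the spectrum is the preimage of a
basic open set. -/
theorem exists_O_of_compact {X : Type*} [TopologicalSpace X] (e : X → SpecL G)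
    (he : IsInducing e) {C : Set X} (hC : IsOpen C) (hC' : IsCompact C) :
    ∃ g : G, 0 ≤ g ∧ C = e ⁻¹' (O g) := by
  classical
  obtain ⟨U, hU, hUC⟩ := he.isOpen_iff.1 hC
  obtain ⟨t, ht⟩ := hC'.elim_finite_subcover (fun g : {g : G // O g ⊆ U} => e ⁻¹' (O g.1))
    (fun g => (isOpen_O g.1).preimage he.continuous) (by
      intro x hx
      rw [← hUC] at hx
      obtain ⟨g, h1, h2⟩ := isOpen_iff_O.1 hU _ hx
      exact mem_iUnion.2 ⟨⟨g, h2⟩, h1⟩)
  obtain ⟨g, h0, hg⟩ := exists_union (t.image Subtype.val)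
  refine ⟨g, h0, ?_⟩
  apply Subset.antisymm
  · intro x hx
    obtain ⟨i, hi, hxi⟩ := mem_iUnion₂.1 (ht hx)
    change e x ∈ O g
    rw [hg]
    exact mem_iUnion₂.2 ⟨i.1, Finset.mem_image_of_mem _ hi, hxi⟩
  · intro x hx
    change e x ∈ O g at hx
    rw [hg] at hx
    obtain ⟨i, hi, hxi⟩ := mem_iUnion₂.1 hx
    obtain ⟨j, _, rfl⟩ := Finset.mem_image.1 hi
    rw [← hUC]
    exact j.2 hxi

end General

end Pool.Agent.LRetract
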