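import Pool.Agent.LRetract.Points
import Pool.Agent.LRetract.SpecCompact

/-!
# MP_f0bf0c_al : the retraction
-/

open Set Filter Topology

namespace Pool.Agent.LRetract

open PTAux

theorem r_M (ξ : I) (η : J) : r (M ξ η) = W ξ η := by
  have h : ∃ x : I × J, M ξ η = M x.1 x.2 := ⟨(ξ, η), rfl⟩
  unfold r
  rw [dif_pos h]
  obtain ⟨h1, h2⟩ := M_injective h.choose_spec
  rw [← h1, ← h2]

namespace RTAux

theorem r_of_ne {P : SpecL H} (h : ¬ ∃ x : I × J, P = M x.1 x.2) : r P = P := by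
  unfold r
  rw [dif_neg h]

theorem add_mem_iff {P : SpecL H} {a b : H} (ha : 0 ≤ a) (hb : 0 ≤ b) :
    a + b ∈ P ↔ a ∈ P ∧ b ∈ P := by
  constructor
  · intro h
    exact ⟨P.convex P.zero_mem h ha (le_add_of_nonneg_right hb),
      P.convex P.zero_mem h hb (le_add_of_nonneg_left ha)⟩
  · rintro ⟨h1, h2⟩
    exact P.add_mem h1 h2

theorem sum_mem_iff {P : SpecL H} {ι : Type*} (s : Finset ι) (f : ι → H) (hf : ∀ i, 0 ≤ f i) :
    ∑ i ∈ s, f i ∈ P ↔ ∀ i ∈ s, f i ∈ P := by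
  classical
  induction s using Finset.induction_on with
  | empty =>
    rw [Finset.sum_empty]
    exact ⟨fun _ i hi => absurd hi (Finset.notMem_empty i), fun _ => P.zero_mem⟩
  | insert a s ha ih =>
    rw [Finset.sum_insert ha, add_mem_iff (hf a) (Finset.sum_nonneg fun i _ => hf i), ih,
      Finset.forall_mem_insert]

theorem eventually_ne {h : H} {ξ : I} {η : J} (h1 : h ∈ M ξ η) (h2 : h ∉ W ξ η) :
    ∃ N, ∀ n, N ≤ n → h.1 (.c ξ η n) ≠ 0 := by
  obtain ⟨L, β, e1, hL⟩ := exists_germ h ξ η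
  have hL0 : L = 0 := tendsto_nhds_unique hL h1
  have hβ : β ≠ 0 := by
    rintro rfl
    apply h2
    rw [mem_W]
    filter_upwards [e1] with n hn
    rw [hn, hL0]; ring
  obtain ⟨N, hN⟩ := eventually_atTop.1 e1
  refine ⟨N, fun n hn => ?_⟩
  rw [hN n hn, hL0, zero_add]
  have := (ξ η).s_lt n
  exact mul_ne_zero hβ (by linarith)

theorem mem_A {h : H} {ξ : I} {η : J} (h1 : h ∈ M ξ η) (h2 : h ∉ W ξ η) {A : Finset I}
    (hA : ∀ ξ, ξ ∉ A → ∀ (η : J) n, h.1 (.c ξ η n) = h.1 (.b η (ξ η).T2)) : ξ ∈ A := by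
  by_contra hξ
  apply h2
  have h3 : (fun n => h.1 (.c ξ η n)) = fun _ => h.1 (.b η (ξ η).T2) := by
    funext n
    exact hA ξ hξ η n
  rw [mem_M, h3] at h1
  have h4 : h.1 (.b η (ξ η).T2) = 0 := tendsto_nhds_unique tendsto_const_nhds h1
  rw [mem_W]
  filter_upwards with n
  rw [hA ξ hξ η n, h4]

theorem mem_B {h : H} {ξ : I} {η : J} (h1 : h ∈ M ξ η) (h2 : h ∉ W ξ η) {B : Finset J}
    (hB : ∀ (ξ : I) (η : J), η ∉ B → ∀ n, h.1 (.c ξ η n) = h.1 (.a ξ ((ξ η).s n))) : η ∈ B := by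
  by_contra hη
  apply h2
  obtain ⟨α, β, hg⟩ := (h.good.arcA ξ).germ (ξ η).T1 (ξ η).irr1
  have hs : Tendsto (fun n => (ξ η).s n) atTop (𝓝 (ξ η).T1) :=
    tendsto_subtype_rng.2 (ξ η).s_tendsto
  have h3 : ∀ᶠ n in atTop, h.1 (.c ξ η n) = α + β * (((ξ η).s n : T) : ℝ) := by
    filter_upwards [hs.eventually hg] with n hn
    rw [hB ξ η hη n, hn]
  have h4 : Tendsto (fun n => (α : ℝ) + β * (((ξ η).s n : T) : ℝ)) atTop
      (𝓝 ((α : ℝ) + β * (ξ η).t1)) :=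
    tendsto_const_nhds.add (tendsto_const_nhds.mul (ξ η).s_tendsto)
  have h5 : (α : ℝ) + β * (ξ η).t1 = 0 :=
    tendsto_nhds_unique h4 ((mem_M.1 h1).congr' h3)
  have hβ : β = 0 := by
    by_contra hβ
    apply (ξ η).irr1
    refine ⟨-α / β, ?_⟩
    have hβ' : (β : ℝ) ≠ 0 := by exact_mod_cast hβ
    push_cast
    field_simp
    linarith
  subst hβ
  have hα : (α : ℝ) = 0 := by simpa using h5
  rw [mem_W]
  filter_upwards [h3] with n hn
  rw [hn, hα]
  simp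

end RTAux

open RTAux

theorem r_mem_Y (P : SpecL H) : r P ∈ Y := by
  by_cases h : ∃ x : I × J, P = M x.1 x.2
  · obtain ⟨x, rfl⟩ := h
    rw [r_M]
    exact W_mem_Y _ _
  · rw [r_of_ne h]
    intro ξ η hP
    exact absurd ⟨(ξ, η), hP⟩ h

theorem r_of_mem_Y {P : SpecL H} (hP : P ∈ Y) : r P = P := by
  by_cases h : ∃ x : I × J, P = M x.1 x.2
  · obtain ⟨x, hx⟩ := h
    have h1 := hP _ _ hx
    have h2 : r P = W x.1 x.2 := by
      rw [hx, r_M]
    rw [h2, h1]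
  · exact r_of_ne h

theorem r_le (P : SpecL H) : r P ≤ P := by
  by_cases h : ∃ x : I × J, P = M x.1 x.2
  · obtain ⟨x, rfl⟩ := h
    rw [r_M]
    exact W_le_M _ _
  · rw [r_of_ne h]

/-- The preimage of a basic open set is a basic open set. -/
theorem r_preimage (h : H) : ∃ h' : H, ∀ P : SpecL H, h ∉ r P ↔ h' ∉ P := by
  classical
  obtain ⟨A, hA⟩ := h.good.finA
  obtain ⟨B, hB⟩ := h.good.finB
  have hN : ∀ x : I × J, ∃ N, (h ∈ M x.1 x.2 ∧ h ∉ W x.1 x.2) →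
      ∀ n, N ≤ n → h.1 (.c x.1 x.2 n) ≠ 0 := by
    intro x
    by_cases hx : h ∈ M x.1 x.2 ∧ h ∉ W x.1 x.2
    · obtain ⟨N, hN⟩ := eventually_ne hx.1 hx.2
      exact ⟨N, fun _ => hN⟩
    · exact ⟨0, fun h' => absurd h' hx⟩
  choose N hN using hN
  set S : Finset (I × J) := (A ×ˢ B).filter (fun x => h ∈ M x.1 x.2 ∧ h ∉ W x.1 x.2) with hS
  have hmem : ∀ P : SpecL H, (|h| + ∑ x ∈ S, tail x.1 x.2 (N x)) ∈ P ↔
      h ∈ P ∧ ∀ x ∈ S, tail x.1 x.2 (N x) ∈ P := by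
    intro P
    rw [add_mem_iff (abs_nonneg h) (Finset.sum_nonneg fun i _ => tail_nonneg _ _ _),
      sum_mem_iff S (fun x => tail x.1 x.2 (N x)) (fun i => tail_nonneg _ _ _), P.abs_mem_iff]
  refine ⟨|h| + ∑ x ∈ S, tail x.1 x.2 (N x), fun P => ?_⟩
  rw [hmem P, not_and]
  constructor
  · intro h1 h2 h3
    by_cases hP : ∃ x : I × J, P = M x.1 x.2
    · obtain ⟨x, rfl⟩ := hP
      rw [r_M] at h1
      have hxS : x ∈ S := by
        rw [hS, Finset.mem_filter, Finset.mem_product]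
        exact ⟨⟨mem_A h2 h1 hA, mem_B h2 h1 hB⟩, h2, h1⟩
      exact tail_notMem_of_W_le x.1 x.2 (N x) _ (W_le_M _ _) (h3 x hxS)
    · rw [r_of_ne hP] at h1
      exact h1 h2
  · intro h1 h2
    by_cases h3 : h ∈ P
    · have h4 := h1 h3
      push Not at h4
      obtain ⟨x, hxS, hx⟩ := h4
      rw [hS, Finset.mem_filter] at hxS
      rcases classify x.1 x.2 (N x) P hx with ⟨n, hn, rfl⟩ | rfl | rfl
      · rw [r_of_mem_Y (pt_mem_Y _), mem_pt] at h2
        exact hN x hxS.2 n hn h2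
      · rw [r_of_mem_Y (W_mem_Y _ _)] at h2
        exact hxS.2.2 h2
      · rw [r_M] at h2
        exact hxS.2.2 h2
    · exact h3 (le_mem (r_le P) h2)

theorem compactSpace_specH : CompactSpace (SpecL H) := by
  refine ⟨?_⟩
  have h : O one = (univ : Set (SpecL H)) := by
    ext P
    simp only [mem_O, mem_univ, iff_true]
    exact one_notMem P
  rw [← h]
  exact isCompact_O one

theorem isSpectralMap_r : IsSpectralMap (fun P : SpecL H => (⟨r P, r_mem_Y P⟩ : Y)) := by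
  refine ⟨?_, ?_⟩
  · refine Continuous.subtype_mk ?_ _
    rw [continuous_def]
    intro V hV
    rw [isOpen_iff_O]
    intro P hP
    obtain ⟨g, h1, h2⟩ := isOpen_iff_O.1 hV _ hP
    obtain ⟨g', hg'⟩ := r_preimage g
    exact ⟨g', (hg' P).1 h1, fun Q hQ => h2 ((hg' Q).2 hQ)⟩
  · intro C hC hC'
    obtain ⟨g, _, hg⟩ := exists_O_of_compact (Subtype.val : Y → SpecL H) IsInducing.subtypeVal
      hC hC'
    obtain ⟨g', hg'⟩ := r_preimage g
    have h1 : (fun P : SpecL H => (⟨r P, r_mem_Y P⟩ : Y)) ⁻¹' C = O g' := by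
      ext P
      rw [hg]
      exact hg' P
    rw [h1]
    exact isCompact_O g'

theorem isSpectralMap_val : IsSpectralMap (Subtype.val : Y → SpecL H) := by
  refine ⟨continuous_subtype_val, ?_⟩
  intro C hC hC'
  obtain ⟨g, _, hg⟩ := exists_O_of_compact (id : SpecL H → SpecL H) IsInducing.id hC hC'
  have h1 : (Subtype.val : Y → SpecL H) ⁻¹' C =
      (fun P : SpecL H => (⟨r P, r_mem_Y P⟩ : Y)) '' (O g) := by
    ext Q
    rw [hg]
    constructor
    · intro hQ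
      exact ⟨Q.1, hQ, Subtype.ext (r_of_mem_Y Q.2)⟩
    · rintro ⟨P, hP, rfl⟩
      exact fun h => hP (le_mem (r_le P) h)
  rw [h1]
  exact (isCompact_O g).image isSpectralMap_r.continuous

end Pool.Agent.LRetract
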