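import Pool.Agent.LRetract.Defs2

/-!
# MP_f0bf0c_al : basic facts on the hull-kernel topology
-/

open Set Filter Topology

namespace Pool.Agent.LRetract

section General

variable {G : Type*} [AddCommGroup G] [Lattice G] [IsOrderedAddMonoid G]

theorem isOpen_O (g : G) : IsOpen (O g) := by
  rw [← isClosed_compl_iff, isClosed_iff]
  refine ⟨{g}, ?_⟩
  ext P
  simp only [mem_compl_iff, mem_O, not_not, mem_ofPred_eq, singleton_subset_iff]
  rfl

theorem O_abs (g : G) : O |g| = O g := by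
  ext P
  rw [mem_O, mem_O, P.abs_mem_iff]

theorem O_inf (g h : G) : O (|g| ⊓ |h|) = O g ∩ O h := by
  ext P
  rw [mem_O, mem_inter_iff, mem_O, mem_O, P.inf_abs_mem_iff, not_or]

theorem O_sup (g h : G) : O (|g| ⊔ |h|) = O g ∪ O h := by
  ext P
  rw [mem_O, mem_union, mem_O, mem_O, P.sup_abs_mem_iff, not_and_or]

theorem isOpen_iff_O {U : Set (SpecL G)} : IsOpen U ↔ ∀ P ∈ U, ∃ g : G, P ∈ O g ∧ O g ⊆ U := by
  constructor
  · intro hU P hP
    obtain ⟨X, hX⟩ := isClosed_iff.1 hU.isClosed_compl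
    have h1 : P ∉ Uᶜ := fun h => h hP
    rw [hX, mem_ofPred_eq, not_subset] at h1
    obtain ⟨g, hg, hgP⟩ := h1
    refine ⟨g, hgP, fun Q hQ => ?_⟩
    by_contra h
    have h2 : Q ∈ Uᶜ := h
    rw [hX] at h2
    exact hQ (h2 hg)
  · intro h
    rw [isOpen_iff_mem_nhds]
    intro P hP
    obtain ⟨g, h1, h2⟩ := h P hP
    exact mem_of_superset ((isOpen_O g).mem_nhds h1) h2

theorem specializes_iff {P Q : SpecL G} : P ⤳ Q ↔ P ≤ Q := by
  rw [specializes_iff_forall_open]
  constructor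
  · intro h x hx
    by_contra hQ
    exact h (O x) (isOpen_O x) hQ hx
  · intro h U hU hQ
    obtain ⟨g, h1, h2⟩ := isOpen_iff_O.1 hU Q hQ
    exact h2 (fun hg => h1 (h hg))

end General

end Pool.Agent.LRetract
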