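import Pool.Agent.LRetract.Retraction
import Pool.Agent.LRetract.RealVal
import Pool.Agent.LRetract.Comb
import Pool.Agent.LRetract.Curve

/-!
# The spaces are spectral
-/

open Set Filter Topology

namespace Pool.Agent.LRetract

section General

variable {G : Type*} [AddCommGroup G] [Lattice G] [IsOrderedAddMonoid G]

theorem mem_closure_singleton {P Q : SpecL G} : Q ∈ closure ({P} : Set (SpecL G)) ↔ P ≤ Q := by
  rw [← specializes_iff_mem_closure, specializes_iff]

instance t0Space_specL : T0Space (SpecL G) := by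
  refine ⟨fun P Q h => ?_⟩
  exact le_antisymm (specializes_iff.1 h.specializes) (specializes_iff.1 h.specializes')

instance quasiSober_specL : QuasiSober (SpecL G) := by
  refine ⟨fun {S} hS hcl => ?_⟩
  obtain ⟨X, rfl⟩ := isClosed_iff.1 hcl
  obtain ⟨⟨P0, hP0⟩, hpre⟩ := hS
  let S : Set (SpecL G) := {P : SpecL G | X ⊆ (P : Set G)}
  have hZ : ∀ f : G, IsClosed {P : SpecL G | f ∈ P} := by
    intro f
    refine isClosed_iff.2 ⟨{f}, ?_⟩
    ext P
    simp
  have key : ∀ f g : G, (∀ P ∈ S, f ∈ P ∨ g ∈ P) → (∀ P ∈ S, f ∈ P) ∨ (∀ P ∈ S, g ∈ P) := by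
    intro f g h
    by_contra hcon
    push Not at hcon
    obtain ⟨⟨P, hP, hfP⟩, ⟨Q, hQ, hgQ⟩⟩ := hcon
    obtain ⟨R, hR, hR1, hR2⟩ := hpre _ _ (hZ f).isOpen_compl (hZ g).isOpen_compl
      ⟨P, hP, hfP⟩ ⟨Q, hQ, hgQ⟩
    rcases h R hR with h1 | h1
    · exact hR1 h1
    · exact hR2 h1
  let I : SpecL G :=
    { carrier := {f | ∀ P ∈ S, f ∈ P}
      add_mem' := fun ha hb P hP => P.add_mem (ha P hP) (hb P hP)
      zero_mem' := fun P _ => P.zero_mem
      neg_mem' := fun ha P hP => P.neg_mem (ha P hP)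
      inf_mem' := fun ha hb P hP => P.inf_mem (ha P hP) (hb P hP)
      sup_mem' := fun ha hb P hP => P.sup_mem (ha P hP) (hb P hP)
      convex' := fun ha hb h1 h2 P hP => P.convex (ha P hP) (hb P hP) h1 h2
      ne_top' := by
        obtain ⟨x, hx⟩ := P0.ne_top'
        exact ⟨x, fun h => hx (h P0 hP0)⟩
      prime' := fun {x y} h => key x y (fun P hP => P.prime (h P hP)) }
  refine ⟨I, ?_⟩
  rw [isGenericPoint_def]
  ext Q
  rw [mem_closure_singleton]
  constructor
  · intro h x hx
    exact h (fun P hP => hP hx)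
  · intro h f hf
    exact hf Q h

/-- Every open set is a union of basic open sets; basic open sets are compact. -/
instance prespectral_specL : PrespectralSpace (SpecL G) := by
  refine ⟨?_⟩
  refine TopologicalSpace.isTopologicalBasis_of_isOpen_of_nhds (fun U hU => hU.1) (fun P U hP hU => ?_)
  obtain ⟨g, hg, hgU⟩ := isOpen_iff_O.1 hU P hP
  exact ⟨O g, ⟨isOpen_O g, isCompact_O g⟩, hg, hgU⟩

instance quasiSeparated_specL : QuasiSeparatedSpace (SpecL G) := by
  refine ⟨fun U V hU hU' hV hV' => ?_⟩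
  obtain ⟨g, -, rfl⟩ := exists_O_of_compact (fun P : SpecL G => P) IsInducing.id hU hU'
  obtain ⟨h, -, rfl⟩ := exists_O_of_compact (fun P : SpecL G => P) IsInducing.id hV hV'
  change IsCompact (O g ∩ O h)
  rw [← O_inf]
  exact isCompact_O _

end General

theorem spectralSpace_specH : SpectralSpace (SpecL H) := by
  have := compactSpace_specH
  exact {}

theorem continuous_rY : Continuous (fun P : SpecL H => (⟨r P, r_mem_Y P⟩ : Y)) :=
  isSpectralMap_r.continuous

theorem rY_val (y : Y) : (⟨r y.1, r_mem_Y y.1⟩ : Y) = y := Subtype.ext (r_of_mem_Y y.2)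

/-- The space `Y` is spectral. -/
theorem spectralSpace_Y : SpectralSpace Y := by
  have h1 := compactSpace_specH
  have hcomp : CompactSpace Y := by
    refine ⟨?_⟩
    have h2 : (fun P : SpecL H => (⟨r P, r_mem_Y P⟩ : Y)) '' Set.univ = Set.univ := by
      rw [Set.image_univ, Set.range_eq_univ]
      intro y
      exact ⟨y.1, rY_val y⟩
    rw [← h2]
    exact isCompact_univ.image continuous_rY
  have hcO : ∀ h : H, IsCompact ((Subtype.val : Y → SpecL H) ⁻¹' (O h)) := fun h =>
    isSpectralMap_val.isCompact_preimage_of_isOpen (isOpen_O h) (isCompact_O h)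
  have hsep : QuasiSeparatedSpace Y := by
    refine ⟨fun U V hU hU' hV hV' => ?_⟩
    obtain ⟨g, -, rfl⟩ := exists_O_of_compact (Subtype.val : Y → SpecL H)
      IsInducing.subtypeVal hU hU'
    obtain ⟨h, -, rfl⟩ := exists_O_of_compact (Subtype.val : Y → SpecL H)
      IsInducing.subtypeVal hV hV'
    rw [← Set.preimage_inter, ← O_inf]
    exact hcO _
  have hpre : PrespectralSpace Y := by
    refine ⟨?_⟩
    refine TopologicalSpace.isTopologicalBasis_of_isOpen_of_nhds (fun U hU => hU.1) (fun y U hy hU => ?_)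
    obtain ⟨V, hV, rfl⟩ := isOpen_induced_iff.1 hU
    obtain ⟨g, hg, hgU⟩ := isOpen_iff_O.1 hV y.1 hy
    exact ⟨Subtype.val ⁻¹' (O g), ⟨(isOpen_O g).preimage continuous_subtype_val, hcO g⟩, hg,
      Set.preimage_mono hgU⟩
  have hsob : QuasiSober Y := by
    refine ⟨fun {S} hS hcl => ?_⟩
    have hirr : IsIrreducible (closure ((Subtype.val : Y → SpecL H) '' S)) :=
      (hS.image _ continuous_subtype_val.continuousOn).closure
    obtain ⟨P, hP⟩ := QuasiSober.sober hirr isClosed_closure
    rw [isGenericPoint_def] at hP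
    refine ⟨⟨r P, r_mem_Y P⟩, ?_⟩
    rw [isGenericPoint_def]
    apply Set.Subset.antisymm
    · refine closure_minimal ?_ hcl
      rintro _ rfl
      have h2 : P ∈ closure ((Subtype.val : Y → SpecL H) '' S) := by
        rw [← hP]; exact subset_closure rfl
      have h3 : (⟨r P, r_mem_Y P⟩ : Y) ∈
          closure ((fun P : SpecL H => (⟨r P, r_mem_Y P⟩ : Y)) '' (Subtype.val '' S)) :=
        image_closure_subset_closure_image continuous_rY ⟨P, h2, rfl⟩
      have h4 : (fun P : SpecL H => (⟨r P, r_mem_Y P⟩ : Y)) '' (Subtype.val '' S) = S := by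
        rw [Set.image_image]
        ext y
        constructor
        · rintro ⟨z, hz, rfl⟩
          change (⟨r z.1, r_mem_Y z.1⟩ : Y) ∈ S
          rw [rY_val]; exact hz
        · intro hy
          exact ⟨y, hy, rY_val y⟩
      rw [h4, hcl.closure_eq] at h3
      exact h3
    · intro y hy
      have h2 : y.1 ∈ closure ((Subtype.val : Y → SpecL H) '' S) :=
        subset_closure ⟨y, hy, rfl⟩
      rw [← hP, ← specializes_iff_mem_closure] at h2
      have h3 := h2.map continuous_rY
      rw [← specializes_iff_mem_closure]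
      have h4 : (⟨r y.1, r_mem_Y y.1⟩ : Y) = y := rY_val y
      rw [h4] at h3
      exact h3
  exact {}

end Pool.Agent.LRetract
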